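import Mathlib
import Pool.Agent.H443R3.Kappa

set_option autoImplicit false

open MeasureTheory ProbabilityTheory Filter Topology
open scoped ENNReal

/-!
# General lemmas on independence of families of coordinates
-/

namespace Pool.Agent.H443R3.FC

/-- Independent blocks of coordinates: integrals of products factorise. -/
theorem lintegral_mul_of_indep {S α : Type*} [MeasurableSpace α] {μ : Measure (S → α)}
    {A B : Set S} (h : IndepFun (fun (x : S → α) (i : A) => x i)
      (fun (x : S → α) (i : B) => x i) μ) {f g : (S → α) → ℝ≥0∞}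
    (hf : Measurable f) (hg : Measurable g) (df : DependsOn f A) (dg : DependsOn g B) :
    ∫⁻ x, f x * g x ∂μ = (∫⁻ x, f x ∂μ) * ∫⁻ x, g x ∂μ := by
  rcases isEmpty_or_nonempty (S → α) with hE | hN
  · have hμ : μ = 0 := by
      ext s
      have : s = ∅ := Set.eq_empty_of_isEmpty s
      simp [this]
    simp [hμ]
  · obtain ⟨a0⟩ := hN
    classical
    have e1 : f = (fun z : A → α =>
        f (fun i => if h : i ∈ A then z ⟨i, h⟩ else a0 i)) ∘
        (fun (x : S → α) (i : A) => x i) := by
      funext x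
      apply df
      intro i hi
      simp only [dif_pos hi]
    have e2 : g = (fun z : B → α =>
        g (fun i => if h : i ∈ B then z ⟨i, h⟩ else a0 i)) ∘
        (fun (x : S → α) (i : B) => x i) := by
      funext x
      apply dg
      intro i hi
      simp only [dif_pos hi]
    have m1 : Measurable (fun z : A → α =>
        f (fun i => if h : i ∈ A then z ⟨i, h⟩ else a0 i)) := by
      apply hf.comp
      rw [measurable_pi_iff]
      intro i
      by_cases hi : i ∈ A
      · simp only [dif_pos hi]; exact measurable_pi_apply _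
      · simp only [dif_neg hi]; exact measurable_const
    have m2 : Measurable (fun z : B → α =>
        g (fun i => if h : i ∈ B then z ⟨i, h⟩ else a0 i)) := by
      apply hg.comp
      rw [measurable_pi_iff]
      intro i
      by_cases hi : i ∈ B
      · simp only [dif_pos hi]; exact measurable_pi_apply _
      · simp only [dif_neg hi]; exact measurable_const
    have h3 : IndepFun f g μ := by
      rw [e1, e2]
      exact h.comp m1 m2
    exact lintegral_mul_eq_lintegral_mul_lintegral_of_indepFun hf hg h3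

/-- Under a product measure disjoint blocks of coordinates are independent. -/
theorem indepFun_infinitePi {S α : Type*} [MeasurableSpace α] (τ : Measure α)
    [IsProbabilityMeasure τ] {A B : Set S} (hAB : Disjoint A B) :
    IndepFun (fun (x : S → α) (i : A) => x i) (fun (x : S → α) (i : B) => x i)
      (Measure.infinitePi fun _ : S => τ) := by
  classical
  apply IndepFun.process_indepFun_process
    (X := fun (i : A) (x : S → α) => x i) (Y := fun (i : B) (x : S → α) => x i)
    (fun i => measurable_pi_apply _) (fun i => measurable_pi_apply _)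
  intro I J
  have hi : iIndepFun (fun (i : S) (x : S → α) => x i) (Measure.infinitePi fun _ : S => τ) :=
    iIndepFun_infinitePi (P := fun _ : S => τ) (X := fun _ x => x) (fun _ => measurable_id)
  have hd : Disjoint (I.map (Function.Embedding.subtype _)) (J.map (Function.Embedding.subtype _)) := by
    rw [Finset.disjoint_left]
    intro a ha hb
    rw [Finset.mem_map] at ha hb
    obtain ⟨⟨x, hx⟩, _, rfl⟩ := ha
    obtain ⟨⟨y, hy⟩, _, h⟩ := hb
    simp only [Function.Embedding.subtype_apply] at h
    subst h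
    exact Set.disjoint_left.1 hAB hx hy
  have := hi.indepFun_finset _ _ hd (fun i => measurable_pi_apply i)
  have e1 : (fun (x : S → α) (i : I) => x ((i : A) : S)) =
      (fun (z : (I.map (Function.Embedding.subtype (· ∈ A))) → α) (i : I) =>
        z ⟨((i : A) : S), Finset.mem_map_of_mem (Function.Embedding.subtype (· ∈ A)) i.2⟩) ∘
      (fun (x : S → α) (i : (I.map (Function.Embedding.subtype (· ∈ A)))) => x i) := by
    funext x i
    rfl
  have e2 : (fun (x : S → α) (i : J) => x ((i : B) : S)) =
      (fun (z : (J.map (Function.Embedding.subtype (· ∈ B))) → α) (i : J) =>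
        z ⟨((i : B) : S), Finset.mem_map_of_mem (Function.Embedding.subtype (· ∈ B)) i.2⟩) ∘
      (fun (x : S → α) (i : (J.map (Function.Embedding.subtype (· ∈ B)))) => x i) := by
    funext x i
    rfl
  rw [e1, e2]
  exact this.comp (by fun_prop) (by fun_prop)

/-- Criterion for independence of two blocks of discrete random variables. -/
theorem indepFun_of_cyl {Ω S α : Type*} [Finite α] [MeasurableSpace α]
    [MeasurableSingletonClass α] [MeasurableSpace Ω] {P : Measure Ω} [IsProbabilityMeasure P]
    (X : S → Ω → α) (mX : ∀ i, Measurable (X i)) (A B : Set S)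
    (h : ∀ I J : Finset S, (∀ i ∈ I, i ∈ A) → (∀ j ∈ J, j ∈ B) → ∀ s t : S → α,
      P {ω | (∀ i ∈ I, X i ω = s i) ∧ ∀ j ∈ J, X j ω = t j} =
        P {ω | ∀ i ∈ I, X i ω = s i} * P {ω | ∀ j ∈ J, X j ω = t j}) :
    IndepFun (fun ω (i : A) => X i ω) (fun ω (j : B) => X j ω) P := by
  classical
  have hne : Nonempty Ω := by
    by_contra hcon
    rw [not_nonempty_iff] at hcon
    have := measure_univ (μ := P)
    rw [Set.univ_eq_empty_iff.2 hcon, measure_empty] at this
    exact zero_ne_one this
  obtain ⟨ω0⟩ := hne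
  apply IndepFun.process_indepFun_process
    (X := fun (i : A) (ω : Ω) => X i ω) (Y := fun (i : B) (ω : Ω) => X i ω)
    (fun i => mX _) (fun i => mX _)
  intro I J
  have m1 : Measurable (fun (ω : Ω) (i : I) => X ((i : A) : S) ω) := by
    rw [measurable_pi_iff]; intro i; exact mX _
  have m2 : Measurable (fun (ω : Ω) (i : J) => X ((i : B) : S) ω) := by
    rw [measurable_pi_iff]; intro i; exact mX _
  show IndepFun (fun (ω : Ω) (i : I) => X ((i : A) : S) ω) (fun (ω : Ω) (i : J) => X ((i : B) : S) ω) P
  rw [indepFun_iff_map_prod_eq_prod_map_map m1.aemeasurable m2.aemeasurable]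
  apply Measure.ext_of_singleton
  rintro ⟨z, w⟩
  rw [Measure.map_apply (m1.prodMk m2) (measurableSet_singleton _),
      ← Set.singleton_prod_singleton, Measure.prod_prod,
      Measure.map_apply m1 (measurableSet_singleton _),
      Measure.map_apply m2 (measurableSet_singleton _)]
  let s : S → α := fun i => if hi : ∃ hA : i ∈ A, (⟨i, hA⟩ : A) ∈ I then z ⟨⟨i, hi.1⟩, hi.2⟩
    else X i ω0
  let t : S → α := fun i => if hi : ∃ hA : i ∈ B, (⟨i, hA⟩ : B) ∈ J then w ⟨⟨i, hi.1⟩, hi.2⟩
    else X i ω0
  have key := h (I.map (Function.Embedding.subtype _)) (J.map (Function.Embedding.subtype _))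
    (by
      intro i hi
      rw [Finset.mem_map] at hi
      obtain ⟨⟨x, hx⟩, _, rfl⟩ := hi
      exact hx)
    (by
      intro i hi
      rw [Finset.mem_map] at hi
      obtain ⟨⟨x, hx⟩, _, rfl⟩ := hi
      exact hx) s t
  have e1 : ∀ ω, (∀ i ∈ I.map (Function.Embedding.subtype (· ∈ A)), X i ω = s i) ↔
      (fun (i : I) => X ((i : A) : S) ω) = z := by
    intro ω
    constructor
    · intro hω
      funext i
      have h1 := hω ((i : A) : S) (Finset.mem_map_of_mem (Function.Embedding.subtype (· ∈ A)) i.2)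
      rw [h1]
      have hi : ∃ hA : ((i : A) : S) ∈ A, (⟨((i : A) : S), hA⟩ : A) ∈ I := ⟨(i : A).2, i.2⟩
      simp only [s, dif_pos hi]
    · intro hω i hi
      rw [Finset.mem_map] at hi
      obtain ⟨⟨x, hx⟩, hxI, rfl⟩ := hi
      have h1 := congrFun hω ⟨⟨x, hx⟩, hxI⟩
      simp only [Function.Embedding.subtype_apply] at h1 ⊢
      rw [h1]
      have hi : ∃ hA : x ∈ A, (⟨x, hA⟩ : A) ∈ I := ⟨hx, hxI⟩
      simp only [s, dif_pos hi]
  have e2 : ∀ ω, (∀ i ∈ J.map (Function.Embedding.subtype (· ∈ B)), X i ω = t i) ↔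
      (fun (i : J) => X ((i : B) : S) ω) = w := by
    intro ω
    constructor
    · intro hω
      funext i
      have h1 := hω ((i : B) : S) (Finset.mem_map_of_mem (Function.Embedding.subtype (· ∈ B)) i.2)
      rw [h1]
      have hi : ∃ hA : ((i : B) : S) ∈ B, (⟨((i : B) : S), hA⟩ : B) ∈ J := ⟨(i : B).2, i.2⟩
      simp only [t, dif_pos hi]
    · intro hω i hi
      rw [Finset.mem_map] at hi
      obtain ⟨⟨x, hx⟩, hxI, rfl⟩ := hi
      have h1 := congrFun hω ⟨⟨x, hx⟩, hxI⟩
      simp only [Function.Embedding.subtype_apply] at h1 ⊢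
      rw [h1]
      have hi : ∃ hA : x ∈ B, (⟨x, hA⟩ : B) ∈ J := ⟨hx, hxI⟩
      simp only [t, dif_pos hi]
  simp only [e1, e2] at key
  have e3 : (fun ω => ((fun (i : I) => X ((i : A) : S) ω), (fun (i : J) => X ((i : B) : S) ω))) ⁻¹'
      ({z} ×ˢ {w}) = {ω | (fun (i : I) => X ((i : A) : S) ω) = z ∧
        (fun (i : J) => X ((i : B) : S) ω) = w} := by
    ext ω
    simp
  rw [e3, key]
  rfl

/-- Cylinder events under a product of measures on sequences. -/
theorem prod_indep {Λ X : Type*} [MeasurableSpace X] (κ : Measure X) [IsProbabilityMeasure κ]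
    (F : Finset Λ) (E E' : Λ → Set X) (hE : ∀ l ∈ F, MeasurableSet (E l))
    (hE' : ∀ l ∈ F, MeasurableSet (E' l)) (h : ∀ l ∈ F, κ (E l ∩ E' l) = κ (E l) * κ (E' l)) :
    Measure.infinitePi (fun _ : Λ => κ) {x | (∀ l ∈ F, x l ∈ E l) ∧ ∀ l ∈ F, x l ∈ E' l} =
      Measure.infinitePi (fun _ : Λ => κ) {x | ∀ l ∈ F, x l ∈ E l} *
        Measure.infinitePi (fun _ : Λ => κ) {x | ∀ l ∈ F, x l ∈ E' l} := by
  have e1 : {x : Λ → X | (∀ l ∈ F, x l ∈ E l) ∧ ∀ l ∈ F, x l ∈ E' l} =
      Set.pi F (fun l => E l ∩ E' l) := by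
    ext x
    simp only [Set.mem_ofPred_eq, Set.mem_pi, SetLike.mem_coe, Set.mem_inter_iff]
    constructor
    · rintro ⟨h1, h2⟩ l hl
      exact ⟨h1 l hl, h2 l hl⟩
    · intro h1
      exact ⟨fun l hl => (h1 l hl).1, fun l hl => (h1 l hl).2⟩
  have e2 : {x : Λ → X | ∀ l ∈ F, x l ∈ E l} = Set.pi F E := by
    ext x
    simp [Set.mem_pi]
  have e3 : {x : Λ → X | ∀ l ∈ F, x l ∈ E' l} = Set.pi F E' := by
    ext x
    simp [Set.mem_pi]
  rw [e1, e2, e3, Measure.infinitePi_pi, Measure.infinitePi_pi, Measure.infinitePi_pi,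
    ← Finset.prod_mul_distrib]
  · exact Finset.prod_congr rfl h
  · exact hE'
  · exact hE
  · exact fun l hl => (hE l hl).inter (hE' l hl)

end Pool.Agent.H443R3.FC
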