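import Pool.Agent.H443R3.FC.Basic

set_option autoImplicit false

open MeasureTheory ProbabilityTheory Filter Topology
open scoped ENNReal

/-!
# Stationary 1-dependent sequences: from half lines to arbitrary sets of sites
-/

namespace Pool.Agent.H443R3.FC

open Pool.Agent.H443R3.Seq

variable {α : Type*} [MeasurableSpace α]

theorem dep_sets {D : ℤ} {μ : Measure (ℤ → α)} (hd : Dep D μ) {E E' : Set (ℤ → α)}
    (hE : MeasurableSet E) (hE' : MeasurableSet E')
    (dE : ∀ x y : ℤ → α, (∀ i ≤ 0, x i = y i) → (x ∈ E ↔ y ∈ E))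
    (dE' : ∀ x y : ℤ → α, (∀ i, D ≤ i → x i = y i) → (x ∈ E' ↔ y ∈ E')) :
    μ (E ∩ E') = μ E * μ E' := by
  have key := hd (E.indicator (fun _ => 1)) (E'.indicator (fun _ => 1))
    (measurable_const.indicator hE) (measurable_const.indicator hE') (by
      intro x y hxy
      have e := dE x y (fun i hi => hxy i hi)
      by_cases hy : y ∈ E
      · rw [Set.indicator_of_mem (e.2 hy), Set.indicator_of_mem hy]
      · rw [Set.indicator_of_notMem (fun h => hy (e.1 h)), Set.indicator_of_notMem hy]) (by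
      intro x y hxy
      have e := dE' x y (fun i hi => hxy i hi)
      by_cases hy : y ∈ E'
      · rw [Set.indicator_of_mem (e.2 hy), Set.indicator_of_mem hy]
      · rw [Set.indicator_of_notMem (fun h => hy (e.1 h)), Set.indicator_of_notMem hy])
  have e1 : (fun x => E.indicator (fun _ => (1 : ℝ≥0∞)) x *
      E'.indicator (fun _ => (1 : ℝ≥0∞)) x) = (E ∩ E').indicator (fun _ => 1) := by
    funext x
    by_cases hx : x ∈ E <;> by_cases hy : x ∈ E' <;> simp [Set.indicator, hx, hy]
  rw [e1, lintegral_indicator (hE.inter hE'), lintegral_indicator hE, lintegral_indicator hE']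
    at key
  simpa using key

theorem measurableSet_cyl [MeasurableSingletonClass α] {S : Type*} (A : Finset S) (s : S → α) :
    MeasurableSet {x : S → α | ∀ i ∈ A, x i = s i} := by
  have : {x : S → α | ∀ i ∈ A, x i = s i} = ⋂ i ∈ A, (fun x : S → α => x i) ⁻¹' {s i} := by
    ext x
    simp
  rw [this]
  exact Finset.measurableSet_biInter _ fun i _ => (measurable_pi_apply i) (measurableSet_singleton _)

theorem half [MeasurableSingletonClass α] {μ : Measure (ℤ → α)} (hs : Stat μ) (hd : Dep 2 μ)
    (k : ℤ) (A B : Finset ℤ) (hA : ∀ a ∈ A, a ≤ k) (hB : ∀ b ∈ B, k + 2 ≤ b) (s : ℤ → α) :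
    μ {x | (∀ i ∈ A, x i = s i) ∧ ∀ i ∈ B, x i = s i} =
      μ {x | ∀ i ∈ A, x i = s i} * μ {x | ∀ i ∈ B, x i = s i} := by
  let E : Set (ℤ → α) := {x | ∀ i ∈ A, x (i - k) = s i}
  let E' : Set (ℤ → α) := {x | ∀ i ∈ B, x (i - k) = s i}
  have mk : ∀ C : Finset ℤ, MeasurableSet {x : ℤ → α | ∀ i ∈ C, x (i - k) = s i} := by
    intro C
    have : {x : ℤ → α | ∀ i ∈ C, x (i - k) = s i} =
        ⋂ i ∈ C, (fun x : ℤ → α => x (i - k)) ⁻¹' {s i} := by
      ext x
      simp
    rw [this]
    exact Finset.measurableSet_biInter _ fun i _ =>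
      (measurable_pi_apply (i - k)) (measurableSet_singleton _)
  have hE : MeasurableSet E := mk A
  have hE' : MeasurableSet E' := mk B
  have h1 := dep_sets hd hE hE' (by
      intro x y hxy
      constructor
      · intro h i hi
        rw [← hxy (i - k) (by have := hA i hi; omega)]
        exact h i hi
      · intro h i hi
        rw [hxy (i - k) (by have := hA i hi; omega)]
        exact h i hi) (by
      intro x y hxy
      constructor
      · intro h i hi
        rw [← hxy (i - k) (by have := hB i hi; omega)]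
        exact h i hi
      · intro h i hi
        rw [hxy (i - k) (by have := hB i hi; omega)]
        exact h i hi)
  have tr1 : ∀ G : Set (ℤ → α), MeasurableSet G → μ (tr k ⁻¹' G) = μ G := by
    intro G hG
    conv_rhs => rw [← hs k]
    rw [Measure.map_apply (measurable_tr k) hG]
  have hsub : ∀ i : ℤ, i - k + k = i := fun i => by ring
  have e1 : tr k ⁻¹' E = {x | ∀ i ∈ A, x i = s i} := by
    ext x
    simp only [E, Set.mem_preimage, Set.mem_ofPred_eq, tr_apply, hsub]
  have e2 : tr k ⁻¹' E' = {x | ∀ i ∈ B, x i = s i} := by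
    ext x
    simp only [E', Set.mem_preimage, Set.mem_ofPred_eq, tr_apply, hsub]
  have e3 : tr k ⁻¹' (E ∩ E') = {x | (∀ i ∈ A, x i = s i) ∧ ∀ i ∈ B, x i = s i} := by
    ext x
    simp only [E, E', Set.mem_preimage, Set.mem_inter_iff, Set.mem_ofPred_eq, tr_apply, hsub]
  rw [← e1, ← e2, ← e3, tr1 _ (hE.inter hE'), tr1 _ hE, tr1 _ hE', h1]

/-- One step of the induction. -/
theorem step [MeasurableSingletonClass α] {μ : Measure (ℤ → α)} (hs : Stat μ) (hd : Dep 2 μ)
    (A B : Finset ℤ) (hAB : ∀ a ∈ A, ∀ b ∈ B, 1 < |a - b|) (s : ℤ → α) (b : ℤ)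
    (hb : ∀ b' ∈ B, b' ≤ b) (hbB : b ∈ B)
    (ih : μ {x | (∀ i ∈ A.filter (· < b), x i = s i) ∧ ∀ i ∈ B, x i = s i} =
      μ {x | ∀ i ∈ A.filter (· < b), x i = s i} * μ {x | ∀ i ∈ B, x i = s i}) :
    μ {x | (∀ i ∈ A, x i = s i) ∧ ∀ i ∈ B, x i = s i} =
      μ {x | ∀ i ∈ A, x i = s i} * μ {x | ∀ i ∈ B, x i = s i} := by
  classical
  have hlo : ∀ a ∈ A.filter (· < b), a ≤ b := fun a ha => le_of_lt (Finset.mem_filter.1 ha).2
  have hhi : ∀ a ∈ A.filter (fun a => ¬ a < b), b + 2 ≤ a := by
    intro a ha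
    obtain ⟨h1, h2⟩ := Finset.mem_filter.1 ha
    have h3 := hAB a h1 b hbB
    rw [lt_abs] at h3
    omega
  have h1 := half hs hd b (A.filter (· < b) ∪ B) (A.filter (fun a => ¬ a < b)) (by
    intro a ha
    rcases Finset.mem_union.1 ha with h | h
    · exact hlo a h
    · exact hb a h) hhi s
  have h2 := half hs hd b (A.filter (· < b)) (A.filter (fun a => ¬ a < b)) hlo hhi s
  have e1 : {x : ℤ → α | (∀ i ∈ A.filter (· < b) ∪ B, x i = s i) ∧
      ∀ i ∈ A.filter (fun a => ¬ a < b), x i = s i} =
      {x | (∀ i ∈ A, x i = s i) ∧ ∀ i ∈ B, x i = s i} := by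
    ext x
    simp only [Set.mem_ofPred_eq, Finset.mem_union, Finset.mem_filter]
    constructor
    · rintro ⟨p, q⟩
      refine ⟨fun i hi => ?_, fun i hi => p i (Or.inr hi)⟩
      by_cases h : i < b
      · exact p i (Or.inl ⟨hi, h⟩)
      · exact q i ⟨hi, h⟩
    · rintro ⟨p, q⟩
      refine ⟨fun i hi => ?_, fun i hi => p i hi.1⟩
      rcases hi with hi | hi
      · exact p i hi.1
      · exact q i hi
  have e2 : {x : ℤ → α | (∀ i ∈ A.filter (· < b), x i = s i) ∧
      ∀ i ∈ A.filter (fun a => ¬ a < b), x i = s i} = {x | ∀ i ∈ A, x i = s i} := by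
    ext x
    simp only [Set.mem_ofPred_eq, Finset.mem_filter]
    constructor
    · rintro ⟨p, q⟩ i hi
      by_cases h : i < b
      · exact p i ⟨hi, h⟩
      · exact q i ⟨hi, h⟩
    · intro p
      exact ⟨fun i hi => p i hi.1, fun i hi => p i hi.1⟩
  have e3 : {x : ℤ → α | ∀ i ∈ A.filter (· < b) ∪ B, x i = s i} =
      {x | (∀ i ∈ A.filter (· < b), x i = s i) ∧ ∀ i ∈ B, x i = s i} := by
    ext x
    simp only [Set.mem_ofPred_eq, Finset.mem_union]
    constructor
    · intro p
      exact ⟨fun i hi => p i (Or.inl hi), fun i hi => p i (Or.inr hi)⟩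
    · rintro ⟨p, q⟩ i (hi | hi)
      · exact p i hi
      · exact q i hi
  rw [e1, e3] at h1
  rw [e2] at h2
  rw [h1, h2, ih]
  ring

/-- A stationary sequence with independent past and future (skipping one site) is 1-dependent:
arbitrary finite sets of sites at distance greater than one are independent. -/
theorem cyl_indep [MeasurableSingletonClass α] {μ : Measure (ℤ → α)} [IsProbabilityMeasure μ]
    (hs : Stat μ) (hd : Dep 2 μ) : ∀ (n : ℕ) (A B : Finset ℤ), A.card + B.card ≤ n →
    (∀ a ∈ A, ∀ b ∈ B, 1 < |a - b|) → ∀ s : ℤ → α,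
    μ {x | (∀ i ∈ A, x i = s i) ∧ ∀ i ∈ B, x i = s i} =
      μ {x | ∀ i ∈ A, x i = s i} * μ {x | ∀ i ∈ B, x i = s i} := by
  intro n
  induction n with
  | zero =>
    intro A B hcard _ s
    have hA : A = ∅ := Finset.card_eq_zero.1 (by omega)
    have hB : B = ∅ := Finset.card_eq_zero.1 (by omega)
    subst hA hB
    simp
  | succ n ih =>
    intro A B hcard hAB s
    rcases A.eq_empty_or_nonempty with hA | hA
    · subst hA; simp
    rcases B.eq_empty_or_nonempty with hB | hB
    · subst hB; simp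
    rcases lt_trichotomy (A.max' hA) (B.max' hB) with h | h | h
    · -- the largest site is in `B`
      have hlt : (B.filter (· < A.max' hA)).card < B.card := by
        apply Finset.card_lt_card
        rw [Finset.filter_ssubset]
        exact ⟨B.max' hB, Finset.max'_mem _ _, not_lt.2 h.le⟩
      have h1 := step hs hd B A (fun b hb a ha => by
          have := hAB a ha b hb
          rwa [abs_sub_comm] at this) s (A.max' hA) (fun a ha => Finset.le_max' _ _ ha)
        (Finset.max'_mem _ _) (ih _ _ (by omega) (fun b hb a ha => by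
          have := hAB a ha b (Finset.mem_filter.1 hb).1
          rwa [abs_sub_comm] at this) s)
      have e : {x : ℤ → α | (∀ i ∈ A, x i = s i) ∧ ∀ i ∈ B, x i = s i} =
          {x | (∀ i ∈ B, x i = s i) ∧ ∀ i ∈ A, x i = s i} := by
        ext x
        exact and_comm
      rw [e, h1, mul_comm]
    · exfalso
      have := hAB _ (A.max'_mem hA) _ (B.max'_mem hB)
      rw [h] at this
      simp at this
    · have hlt : (A.filter (· < B.max' hB)).card < A.card := by
        apply Finset.card_lt_card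
        rw [Finset.filter_ssubset]
        exact ⟨A.max' hA, Finset.max'_mem _ _, not_lt.2 h.le⟩
      exact step hs hd A B hAB s (B.max' hB) (fun a ha => Finset.le_max' _ _ ha)
        (Finset.max'_mem _ _) (ih _ _ (by omega) (fun a ha b hb => 
          hAB a (Finset.mem_filter.1 ha).1 b hb) s)

end Pool.Agent.H443R3.FC
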