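import Mathlib

set_option autoImplicit false

open MeasureTheory ProbabilityTheory
open scoped ENNReal

/-!
# Factors of i.i.d. fields on `ℤ^d`: definitions
-/

namespace Pool.Agent.H443R3.FC

/-- The `ℓ¹` norm on `ℤ^d`. -/
def norm1 {d : ℕ} (v : Fin d → ℤ) : ℤ := ∑ i, |v i|

/-- `F` commutes with all translations of `ℤ^d`. -/
def Equivariant {d : ℕ} {T C : Type} (F : ((Fin d → ℤ) → T) → ((Fin d → ℤ) → C)) : Prop :=
  ∀ (a : Fin d → ℤ) (y : (Fin d → ℤ) → T), F (fun v => y (v + a)) = fun v => F y (v + a)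

/-- The value of `F y` at the origin is determined by the restriction of `y` to the `ℓ¹` ball of
radius `r` about the origin. -/
def Determined {d : ℕ} {T C : Type} (F : ((Fin d → ℤ) → T) → ((Fin d → ℤ) → C))
    (y : (Fin d → ℤ) → T) (r : ℕ) : Prop :=
  ∀ y' : (Fin d → ℤ) → T, (∀ v, norm1 v ≤ r → y' v = y v) → F y' 0 = F y 0

/-- The coding radius: the least `r` with `Determined F y r` (`⊤` if there is none). -/
noncomputable def codingRadius {d : ℕ} {T C : Type}
    (F : ((Fin d → ℤ) → T) → ((Fin d → ℤ) → C)) (y : (Fin d → ℤ) → T) : ℕ∞ :=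
  ⨅ (r : ℕ) (_ : Determined F y r), (r : ℕ∞)

/-- The random field `X` is `k`-dependent: its restrictions to two sets of sites at `ℓ¹` distance
larger than `k` are independent. -/
def KDependent {d : ℕ} {Ω C : Type} [MeasurableSpace Ω] [MeasurableSpace C] (k : ℤ)
    (P : Measure Ω) (X : (Fin d → ℤ) → Ω → C) : Prop :=
  ∀ A B : Set (Fin d → ℤ), (∀ a ∈ A, ∀ b ∈ B, k < norm1 (a - b)) →
    IndepFun (fun ω (a : A) => X a ω) (fun ω (b : B) => X b ω) P

end Pool.Agent.H443R3.FC
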