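import Pool.Agent.H443R3.FC.Tail

set_option autoImplicit false

open MeasureTheory ProbabilityTheory Filter Topology
open scoped ENNReal unitInterval Nat

/-!
# The new colouring of the line is 1-dependent and proper
-/

namespace Pool.Agent.H443R3.FC

open Pool.Agent.H443R3.Seq

theorem back_spec {a : ℤ → Bool} {i : ℤ} (h : ∃ k : ℕ, a (i - k - 1) ≠ a (i - k)) :
    a (i - back a i - 1) ≠ a (i - back a i) ∧ ∀ k : ℕ, k < back a i → a (i - k - 1) = a (i - k) := by
  have hne : {k : ℕ | a (i - k - 1) ≠ a (i - k)}.Nonempty := h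
  refine ⟨Nat.sInf_mem hne, fun k hk => ?_⟩
  by_contra hcon
  exact absurd (Nat.sInf_le (show k ∈ {k : ℕ | a (i - k - 1) ≠ a (i - k)} from hcon)) (not_le.2 hk)

theorem back_eq_of {a : ℤ → Bool} {i : ℤ} {m : ℕ} (h1 : a (i - m - 1) ≠ a (i - m))
    (h2 : ∀ k : ℕ, k < m → a (i - k - 1) = a (i - k)) : back a i = m := by
  have hne : {k : ℕ | a (i - k - 1) ≠ a (i - k)}.Nonempty := ⟨m, h1⟩
  apply le_antisymm (Nat.sInf_le h1)
  by_contra hcon
  push Not at hcon
  exact Nat.sInf_mem hne (h2 _ hcon)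

theorem back_congr {a a' : ℤ → Bool} {i : ℤ} (h : ∀ k ≤ i, a k = a' k) :
    back a i = back a' i := by
  unfold back
  congr 1
  ext k
  simp only [Set.mem_ofPred_eq]
  rw [h (i - k - 1) (by omega), h (i - k) (by omega)]

/-- Cut the run structure just before the site `2`. -/
def cut (a : ℤ → Bool) (j : ℤ) : Bool := if 2 ≤ j then a j else !(a 2)

theorem cut_of_le {a : ℤ → Bool} {j : ℤ} (h : 2 ≤ j) : cut a j = a j := if_pos h

theorem cut_one (a : ℤ → Bool) : cut a 1 ≠ cut a 2 := by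
  unfold cut
  simp

theorem colB_cut {a : ℤ → Bool} (h : ∃ k : ℕ, a (2 - k - 1) ≠ a (2 - k)) (V : ℤ → ℤ → Fin 4)
    {j : ℤ} (hj : 2 ≤ j) :
    colB a V j = colB (cut a) (fun l => V (Equiv.swap (2 - (back a 2 : ℤ)) 2 l)) j := by
  have hs := back_spec h
  by_cases hc : ∃ k : ℕ, (k : ℤ) ≤ j - 3 ∧ a (j - k - 1) ≠ a (j - k)
  · obtain ⟨k, hk, hak⟩ := hc
    have hsj := back_spec (a := a) (i := j) ⟨k, hak⟩
    have hle : back a j ≤ k := Nat.sInf_le (show k ∈ {k : ℕ | a (j - k - 1) ≠ a (j - k)} from hak)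
    have e1 : back (cut a) j = back a j := by
      apply back_eq_of
      · rw [cut_of_le (by omega), cut_of_le (by omega)]
        exact hsj.1
      · intro k' hk'
        rw [cut_of_le (by omega), cut_of_le (by omega)]
        exact hsj.2 k' hk'
    have e2 : Equiv.swap (2 - (back a 2 : ℤ)) 2 (j - (back a j : ℤ)) = j - (back a j : ℤ) := by
      apply Equiv.swap_apply_of_ne_of_ne <;> omega
    simp only [colB, e1, e2, cut_of_le hj]
  · push Not at hc
    have hconst : ∀ k : ℕ, (k : ℤ) ≤ j - 3 → a (j - k - 1) = a (j - k) := hc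
    have e1 : back a j = (j - 2).toNat + back a 2 := by
      apply back_eq_of
      · have h1 : j - (((j - 2).toNat + back a 2 : ℕ) : ℤ) = 2 - back a 2 := by
          push_cast
          omega
        rw [h1]
        exact hs.1
      · intro k hk
        by_cases hk3 : (k : ℤ) ≤ j - 3
        · exact hconst k hk3
        · have h1 : j - (k : ℤ) = 2 - ((k - (j - 2).toNat : ℕ) : ℤ) := by omega
          rw [h1]
          exact hs.2 _ (by omega)
    have e2 : back (cut a) j = (j - 2).toNat := by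
      apply back_eq_of
      · have h1 : j - ((j - 2).toNat : ℤ) = 2 := by omega
        rw [h1]
        exact cut_one a
      · intro k hk
        rw [cut_of_le (by omega), cut_of_le (by omega)]
        exact hconst k (by omega)
    have e3 : j - (back a j : ℤ) = 2 - back a 2 := by rw [e1]; push_cast; omega
    have e4 : j - (back (cut a) j : ℤ) = 2 := by rw [e2]; omega
    simp only [colB, e3, e4, cut_of_le hj, Equiv.swap_apply_right]

theorem lintegral_swap (κ : Measure (ℤ → Fin 4)) [IsProbabilityMeasure κ] (e : Equiv.Perm ℤ)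
    {h : (ℤ → ℤ → Fin 4) → ℝ≥0∞} (hh : Measurable h) :
    ∫⁻ V, h (fun l => V (e l)) ∂(kaZ κ) = ∫⁻ V, h V ∂(kaZ κ) := by
  have h1 : (kaZ κ).map (fun ω i => ω (e i)) = kaZ κ :=
    Measure.map_infinitePi_infinitePi_of_inj (P := fun _ : ℤ => κ) e.injective
  have h2 : Measurable (fun (V : ℤ → ℤ → Fin 4) l => V (e l)) := by
    rw [measurable_pi_iff]; intro l; exact measurable_pi_apply _
  conv_rhs => rw [← h1]
  rw [lintegral_map hh h2]

theorem dep_lam {κ : Measure (ℤ → Fin 4)} [IsProbabilityMeasure κ] (hκ : Stat κ) (dκ : Dep 2 κ) :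
    Dep 2 (lam κ) := by
  intro f g hf hg df dg
  have hfg : Measurable (fun x => f x * g x) := hf.mul hg
  rw [lintegral_lam hκ hfg, lintegral_lam hκ hf, lintegral_lam hκ hg]
  have mf : Measurable (fun p : (ℤ → I) × (ℤ → ℤ → Fin 4) => f (colB (up p.1) p.2)) :=
    hf.comp measurable_colBup
  have mg : Measurable (fun p : (ℤ → I) × (ℤ → ℤ → Fin 4) => g (colB (up p.1) p.2)) :=
    hg.comp measurable_colBup
  have mgc : Measurable (fun p : (ℤ → I) × (ℤ → ℤ → Fin 4) => g (colB (cut (up p.1)) p.2)) := by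
    have mcut : Measurable (fun p : (ℤ → I) × (ℤ → ℤ → Fin 4) => cut (up p.1)) := ?_
    · exact hg.comp (measurable_colB.comp (mcut.prodMk measurable_snd))
    rw [measurable_pi_iff]
    intro j
    have mu1 : ∀ j : ℤ, Measurable (fun p : (ℤ → I) × (ℤ → ℤ → Fin 4) => up p.1 j) := fun j =>
      (measurable_pi_apply j).comp (measurable_up.comp measurable_fst)
    by_cases hj : 2 ≤ j
    · simp only [cut, if_pos hj]
      exact mu1 j
    · simp only [cut, if_neg hj]
      exact Measurable.comp (Measurable.of_discrete (f := fun b : Bool => !b)) (mu1 2)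
  have mf' : ∀ u, Measurable (fun V : ℤ → ℤ → Fin 4 => f (colB (up u) V)) := fun u =>
    mf.comp measurable_prodMk_left
  have mg' : ∀ u, Measurable (fun V : ℤ → ℤ → Fin 4 => g (colB (up u) V)) := fun u =>
    mg.comp measurable_prodMk_left
  have mgc' : ∀ u, Measurable (fun V : ℤ → ℤ → Fin 4 => g (colB (cut (up u)) V)) := fun u =>
    mgc.comp measurable_prodMk_left
  have hΦ : Measurable (fun u => ∫⁻ V, f (colB (up u) V) ∂(kaZ κ)) :=
    Measurable.lintegral_prod_right' mf
  have hΨ : Measurable (fun u => ∫⁻ V, g (colB (cut (up u)) V) ∂(kaZ κ)) :=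
    Measurable.lintegral_prod_right' mgc
  -- the future term only depends on the future labels
  have hΨeq : ∀ᵐ u ∂nuZ, ∫⁻ V, g (colB (up u) V) ∂(kaZ κ) =
      ∫⁻ V, g (colB (cut (up u)) V) ∂(kaZ κ) := by
    filter_upwards [ae_start] with u hu
    rw [← lintegral_swap κ (Equiv.swap (2 - (back (up u) 2 : ℤ)) 2) (mgc' u)]
    apply lintegral_congr
    intro V
    apply dg
    intro j hj
    exact colB_cut (hu 2) V hj
  have step1 : ∫⁻ u, ∫⁻ V, f (colB (up u) V) * g (colB (up u) V) ∂(kaZ κ) ∂nuZ =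
      ∫⁻ u, (∫⁻ V, f (colB (up u) V) ∂(kaZ κ)) * (∫⁻ V, g (colB (cut (up u)) V) ∂(kaZ κ)) ∂nuZ := by
    apply lintegral_congr_ae
    filter_upwards [hΨeq] with u hu
    rw [← hu]
    apply dep_kaZ dκ (mf' u) (mg' u)
    · intro V V' hV
      apply df
      intro i hi
      have hi' : i ≤ 0 := hi
      simp only [colB]
      rw [hV _ i hi']
    · intro V V' hV
      apply dg
      intro i hi
      have hi' : 2 ≤ i := hi
      simp only [colB]
      rw [hV _ i hi']
  rw [step1, lintegral_congr_ae hΨeq]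
  apply lintegral_mul_of_indep (A := Set.Iic (1 : ℤ)) (B := Set.Ici (2 : ℤ))
    (indepFun_infinitePi (volume : Measure I) (by
      rw [Set.disjoint_left]
      intro x hx hx'
      have h1 : x ≤ 1 := hx
      have h2 : 2 ≤ x := hx'
      omega)) hΦ hΨ
  · intro u u' huu
    have hup : ∀ i ≤ (0 : ℤ), up u i = up u' i := by
      intro i hi
      unfold up
      rw [huu i (show i ≤ 1 by omega), huu (i + 1) (show i + 1 ≤ 1 by omega)]
    apply lintegral_congr
    intro V
    apply df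
    intro i hi
    have hi' : i ≤ 0 := hi
    simp only [colB]
    rw [hup i hi', back_congr (fun k hk => hup k (le_trans hk hi'))]
  · intro u u' huu
    have hup : ∀ i, (2 : ℤ) ≤ i → up u i = up u' i := by
      intro i hi
      unfold up
      rw [huu i (show 2 ≤ i by omega), huu (i + 1) (show 2 ≤ i + 1 by omega)]
    have hcut : cut (up u) = cut (up u') := by
      funext j
      unfold cut
      by_cases hj : 2 ≤ j
      · rw [if_pos hj, if_pos hj, hup j hj]
      · rw [if_neg hj, if_neg hj, hup 2 le_rfl]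
    show ∫⁻ V, g (colB (cut (up u)) V) ∂(kaZ κ) = ∫⁻ V, g (colB (cut (up u')) V) ∂(kaZ κ)
    rw [hcut]

/-! ### Properness -/

theorem colA_proper {a : ℤ → Bool} {V : ℤ → ℤ → Fin 4}
    (h : ∀ i : ℤ, ∃ k : ℕ, a (i - k - 1) ≠ a (i - k))
    (hV : ∀ l i : ℤ, V l i ≠ V l (i + 1)) (i : ℤ) : colA a V i ≠ colA a V (i + 1) := by
  intro heq
  simp only [colA, Prod.mk.injEq] at heq
  obtain ⟨h1, h2⟩ := heq
  have hs := back_spec (h i)
  have e1 : back a (i + 1) = back a i + 1 := by
    apply back_eq_of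
    · have : i + 1 - ((back a i + 1 : ℕ) : ℤ) = i - back a i := by push_cast; ring
      rw [this]
      exact hs.1
    · intro k hk
      rcases k with _ | k
      · simpa using h1
      · have : i + 1 - ((k + 1 : ℕ) : ℤ) = i - k := by push_cast; ring
        rw [this]
        exact hs.2 k (by omega)
  rw [e1] at h2
  have e2 : i + 1 - ((back a i + 1 : ℕ) : ℤ) = i - back a i := by push_cast; ring
  rw [e2] at h2
  push_cast at h2
  exact hV _ _ h2

theorem ae_proper {κ : Measure (ℤ → Fin 4)} [IsProbabilityMeasure κ]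
    (hp : ∀ᵐ x ∂κ, ∀ i : ℤ, x i ≠ x (i + 1)) :
    ∀ᵐ p ∂(nuZ.prod (kaZ κ)), (∀ i : ℤ, ∃ k : ℕ, up p.1 (i - k - 1) ≠ up p.1 (i - k)) ∧
      ∀ i : ℤ, colA (up p.1) p.2 i ≠ colA (up p.1) p.2 (i + 1) := by
  have h1 : ∀ᵐ V ∂(kaZ κ), ∀ l i : ℤ, V l i ≠ V l (i + 1) := by
    rw [ae_all_iff]
    intro l
    have : (kaZ κ).map (fun V => V l) = κ := Measure.infinitePi_map_eval (fun _ : ℤ => κ) l
    rw [← this] at hp
    exact ae_of_ae_map (measurable_pi_apply l).aemeasurable hp
  have h2 : ∀ᵐ p ∂(nuZ.prod (kaZ κ)), ∀ l i : ℤ, p.2 l i ≠ p.2 l (i + 1) :=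
    Measure.quasiMeasurePreserving_snd.ae h1
  have h3 : ∀ᵐ p ∂(nuZ.prod (kaZ κ)), ∀ i : ℤ, ∃ k : ℕ, up p.1 (i - k - 1) ≠ up p.1 (i - k) :=
    Measure.quasiMeasurePreserving_fst.ae ae_start
  filter_upwards [h2, h3] with p hp2 hp3
  exact ⟨hp3, fun i => colA_proper hp3 hp2 i⟩

end Pool.Agent.H443R3.FC
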