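import Pool.Agent.H443R3.FC.DepLam
import Pool.Agent.H443R3.FC.Defs

set_option autoImplicit false

open MeasureTheory ProbabilityTheory Filter Topology
open scoped ENNReal unitInterval Nat

/-!
# The colouring of `ℤ^d`
-/

namespace Pool.Agent.H443R3.FC

open Pool.Agent.H443R3.Seq

/-- The single-site label space. -/
abbrev Lab (d : ℕ) : Type := Fin d × Bool → I

noncomputable abbrev labM (d : ℕ) : Measure (Lab d) :=
  Measure.infinitePi fun _ : Fin d × Bool => (volume : Measure I)

/-- Configurations of labels. -/
abbrev Conf (d : ℕ) : Type := (Fin d → ℤ) → Lab d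

noncomputable abbrev confM (d : ℕ) : Measure (Conf d) :=
  Measure.infinitePi fun _ : Fin d → ℤ => labM d

/-- Lines of `ℤ^(n+1)`. -/
abbrev Lines (n : ℕ) : Type := Fin (n + 1) × (Fin n → ℤ)

/-- The site of parameter `m` on a line. -/
def site {n : ℕ} (l : Lines n) (m : ℤ) : Fin (n + 1) → ℤ := l.1.insertNth m l.2

/-- The labels along the lines. -/
def readL {n : ℕ} (Y : Conf (n + 1)) (l : Lines n) (p : Bool × ℤ) : I := Y (site l p.2) (l.1, p.1)

theorem site_inj {n : ℕ} : Function.Injective
    (fun q : Lines n × (Bool × ℤ) => (site q.1 q.2.2, (q.1.1, q.2.1))) := by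
  rintro ⟨⟨j, r⟩, b, m⟩ ⟨⟨j', r'⟩, b', m'⟩ h
  simp only [Prod.mk.injEq, site] at h
  obtain ⟨h1, h2, h3⟩ := h
  subst h2 h3
  have h4 : m = m' := by simpa using congrFun h1 j
  have h5 : r = r' := by
    funext i
    simpa using congrFun h1 (j.succAbove i)
  subst h4 h5
  rfl

theorem map_readL (n : ℕ) : (confM (n + 1)).map readL =
    Measure.infinitePi fun _ : Lines n => Measure.infinitePi fun _ : Bool × ℤ =>
      (volume : Measure I) := by
  have h1 := Measure.infinitePi_map_curry_symm
    (μ := fun (_ : Fin (n + 1) → ℤ) (_ : Fin (n + 1) × Bool) => (volume : Measure I))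
  have h2 := Measure.map_infinitePi_infinitePi_of_inj
    (P := fun _ : (Fin (n + 1) → ℤ) × (Fin (n + 1) × Bool) => (volume : Measure I)) (site_inj (n := n))
  have h3 := Measure.infinitePi_map_curry
    (μ := fun (_ : Lines n) (_ : Bool × ℤ) => (volume : Measure I))
  rw [← h3, ← h2, ← h1, Measure.map_map, Measure.map_map]
  · rfl
  all_goals fun_prop

section col

variable (ph : I → (ℤ → Fin 4))

/-- The colouring of one line, from its labels. -/
noncomputable def lineCol (w : Bool × ℤ → I) : ℤ → Bool × Fin 4 :=
  colA (up (fun m => w (false, m))) (fun m => ph (w (true, m)))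

/-- All line colourings. -/
noncomputable def allCol {n : ℕ} (Y : Conf (n + 1)) (l : Lines n) : ℤ → Bool × Fin 4 :=
  lineCol ph (readL Y l)

variable {ph}

theorem measurable_pairing (hph : Measurable ph) : Measurable (fun w : Bool × ℤ → I =>
    ((fun m => w (false, m), fun m => ph (w (true, m))) : (ℤ → I) × (ℤ → ℤ → Fin 4))) := by
  apply Measurable.prodMk
  · fun_prop
  · rw [measurable_pi_iff]
    intro m
    exact hph.comp (measurable_pi_apply _)

theorem measurable_lineCol (hph : Measurable ph) : Measurable (lineCol ph) :=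
  measurable_colAup.comp (measurable_pairing hph)

theorem map_pairing (hph : Measurable ph) {κ : Measure (ℤ → Fin 4)} [IsProbabilityMeasure κ]
    (hκ : (volume : Measure I).map ph = κ) :
    (Measure.infinitePi fun _ : Bool × ℤ => (volume : Measure I)).map
      (fun w : Bool × ℤ → I => ((fun m => w (false, m), fun m => ph (w (true, m))) :
        (ℤ → I) × (ℤ → ℤ → Fin 4))) = nuZ.prod (kaZ κ) := by
  have hAB : Disjoint {p : Bool × ℤ | p.1 = false} {p : Bool × ℤ | p.1 = true} := by
    rw [Set.disjoint_left]
    intro p hp hp'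
    have h1 : p.1 = false := hp
    have h2 : p.1 = true := hp'
    rw [h1] at h2
    exact absurd h2 (by decide)
  have h1 := indepFun_infinitePi (volume : Measure I) hAB
  have m1 : Measurable (fun (z : {p : Bool × ℤ | p.1 = false} → I) (m : ℤ) =>
    z ⟨(false, m), rfl⟩) := by fun_prop
  have m2 : Measurable (fun (z : {p : Bool × ℤ | p.1 = true} → I) (m : ℤ) =>
    ph (z ⟨(true, m), rfl⟩)) := by
      rw [measurable_pi_iff]; intro m
      exact hph.comp (measurable_pi_apply _)
  have h2 := h1.comp m1 m2
  have m3 : Measurable (fun (w : Bool × ℤ → I) (m : ℤ) => w (false, m)) := by fun_prop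
  have m4 : Measurable (fun (w : Bool × ℤ → I) (m : ℤ) => ph (w (true, m))) := by
    rw [measurable_pi_iff]; intro m
    exact hph.comp (measurable_pi_apply _)
  have h3 : IndepFun (fun (w : Bool × ℤ → I) (m : ℤ) => w (false, m))
      (fun (w : Bool × ℤ → I) (m : ℤ) => ph (w (true, m)))
      (Measure.infinitePi fun _ : Bool × ℤ => (volume : Measure I)) := h2
  rw [(indepFun_iff_map_prod_eq_prod_map_map m3.aemeasurable m4.aemeasurable).1 h3]
  congr 1
  · exact Measure.map_infinitePi_infinitePi_of_inj (P := fun _ : Bool × ℤ => (volume : Measure I))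
      (f := fun m : ℤ => (false, m)) (fun a b h => (Prod.mk.inj h).2)
  · have h4 : (Measure.infinitePi fun _ : Bool × ℤ => (volume : Measure I)).map
        (fun (w : Bool × ℤ → I) (m : ℤ) => w (true, m)) =
        Measure.infinitePi fun _ : ℤ => (volume : Measure I) :=
      Measure.map_infinitePi_infinitePi_of_inj (P := fun _ : Bool × ℤ => (volume : Measure I))
        (f := fun m : ℤ => (true, m)) (fun a b h => (Prod.mk.inj h).2)
    have h5 := Measure.infinitePi_map_pi (fun _ : ℤ => (volume : Measure I)) (f := fun _ => ph)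
      (fun _ => hph)
    have m5 : Measurable (fun (z : ℤ → I) (m : ℤ) => ph (z m)) := by
      rw [measurable_pi_iff]; intro m
      exact hph.comp (measurable_pi_apply _)
    have m6 : Measurable (fun (w : Bool × ℤ → I) (m : ℤ) => w (true, m)) := by fun_prop
    rw [← h4, Measure.map_map m5 m6] at h5
    rw [hκ] at h5
    exact h5

theorem map_lineCol (hph : Measurable ph) {κ : Measure (ℤ → Fin 4)} [IsProbabilityMeasure κ]
    (hκ : (volume : Measure I).map ph = κ) :
    (Measure.infinitePi fun _ : Bool × ℤ => (volume : Measure I)).map (lineCol ph) = lam κ := by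
  unfold lam
  rw [← map_pairing hph hκ, Measure.map_map measurable_colAup (measurable_pairing hph)]
  rfl

theorem measurable_readL {n : ℕ} : Measurable (readL : Conf (n + 1) → Lines n → (Bool × ℤ → I)) := by
  rw [measurable_pi_iff]; intro l
  rw [measurable_pi_iff]; intro p
  exact (measurable_pi_apply _).comp (measurable_pi_apply _)

theorem measurable_allCol (hph : Measurable ph) {n : ℕ} :
    Measurable (allCol ph : Conf (n + 1) → Lines n → (ℤ → Bool × Fin 4)) := by
  rw [measurable_pi_iff]; intro l
  exact (measurable_lineCol hph).comp ((measurable_pi_apply l).comp measurable_readL)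

theorem map_allCol (hph : Measurable ph) {κ : Measure (ℤ → Fin 4)} [IsProbabilityMeasure κ]
    (hκ : (volume : Measure I).map ph = κ) (n : ℕ) :
    (confM (n + 1)).map (allCol ph) = Measure.infinitePi fun _ : Lines n => lam κ := by
  have h1 := Measure.infinitePi_map_pi
    (fun _ : Lines n => Measure.infinitePi fun _ : Bool × ℤ => (volume : Measure I))
    (f := fun _ => lineCol ph) (fun _ => measurable_lineCol hph)
  have m5 : Measurable (fun (z : Lines n → (Bool × ℤ → I)) (l : Lines n) => lineCol ph (z l)) := by
    rw [measurable_pi_iff]; intro m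
    exact (measurable_lineCol hph).comp (measurable_pi_apply _)
  rw [← map_readL, Measure.map_map m5 measurable_readL, map_lineCol hph hκ] at h1
  exact h1

/-- The colour vector of a site. -/
noncomputable def colVec (ph : I → (ℤ → Fin 4)) {n : ℕ} (Y : Conf (n + 1)) (v : Fin (n + 1) → ℤ) :
    Fin (n + 1) → Bool × Fin 4 :=
  fun j => allCol ph Y (j, j.removeNth v) (v j)

end col

end Pool.Agent.H443R3.FC
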