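import Pool.Agent.H443R3.FC.Cyl

set_option autoImplicit false

open MeasureTheory ProbabilityTheory Filter Topology
open scoped ENNReal unitInterval

/-!
# The colouring of the line: independent pieces on the monotone runs of i.i.d. uniform labels
-/

namespace Pool.Agent.H443R3.FC

open Pool.Agent.H443R3.Seq

/-- The ascent indicator of a sequence of labels. -/
noncomputable def up (u : ℤ → I) (i : ℤ) : Bool := decide (u i < u (i + 1))

/-- Number of steps from `i` back to the start of the run of `a` containing `i`. -/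
noncomputable def back (a : ℤ → Bool) (i : ℤ) : ℕ := sInf {k : ℕ | a (i - k - 1) ≠ a (i - k)}

/-- The colouring (translation-equivariant form). -/
noncomputable def colA (a : ℤ → Bool) (V : ℤ → ℤ → Fin 4) (i : ℤ) : Bool × Fin 4 :=
  (a i, V (i - back a i) (back a i))

/-- The colouring (form used for the computation of the law). -/
noncomputable def colB (a : ℤ → Bool) (V : ℤ → ℤ → Fin 4) (i : ℤ) : Bool × Fin 4 :=
  (a i, V (i - back a i) i)

theorem up_tr (m : ℤ) (u : ℤ → I) : up (tr m u) = tr m (up u) := by
  funext i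
  simp only [up, tr_apply]
  congr 3
  ring

theorem back_tr (m : ℤ) (a : ℤ → Bool) (i : ℤ) : back (tr m a) i = back a (i + m) := by
  unfold back
  congr 1
  ext k
  simp only [tr_apply, Set.mem_ofPred_eq]
  have e1 : i - (k : ℤ) - 1 + m = i + m - k - 1 := by ring
  have e2 : i - (k : ℤ) + m = i + m - k := by ring
  rw [e1, e2]

theorem colA_tr (m : ℤ) (a : ℤ → Bool) (V : ℤ → ℤ → Fin 4) :
    colA (tr m a) (tr m V) = tr m (colA a V) := by
  funext i
  simp only [colA, tr_apply, back_tr]
  have e : i - (back a (i + m) : ℤ) + m = i + m - back a (i + m) := by ring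
  rw [e]

theorem colA_eq_colB (a : ℤ → Bool) (V : ℤ → ℤ → Fin 4) :
    colA a V = colB a (fun l => tr (-l) (V l)) := by
  funext i
  simp only [colA, colB, tr_apply]
  have e : i + -(i - (back a i : ℤ)) = back a i := by ring
  rw [e]

/-! ### Measurability -/

theorem measurable_up : Measurable (up : (ℤ → I) → (ℤ → Bool)) := by
  rw [measurable_pi_iff]
  intro i
  apply measurable_to_bool
  have : (fun u : ℤ → I => up u i) ⁻¹' {true} = {u | u i < u (i + 1)} := by
    ext u
    simp [up]
  rw [this]
  exact measurableSet_lt (measurable_pi_apply i) (measurable_pi_apply (i + 1))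

theorem back_eq_succ (a : ℤ → Bool) (i : ℤ) (m : ℕ) : back a i = m + 1 ↔
    a (i - (m + 1 : ℕ) - 1) ≠ a (i - (m + 1 : ℕ)) ∧
      ∀ k : ℕ, k ≤ m → a (i - k - 1) = a (i - k) := by
  unfold back
  constructor
  · intro h
    have hne : {k : ℕ | a (i - k - 1) ≠ a (i - k)}.Nonempty := by
      by_contra hcon
      rw [Set.not_nonempty_iff_eq_empty] at hcon
      rw [hcon, Nat.sInf_empty] at h
      omega
    have h1 := Nat.sInf_mem hne
    rw [h] at h1
    refine ⟨h1, fun k hk => ?_⟩
    by_contra hcon
    have h2 := Nat.sInf_le (show k ∈ {k : ℕ | a (i - k - 1) ≠ a (i - k)} from hcon)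
    omega
  · rintro ⟨h1, h2⟩
    apply le_antisymm
    · exact Nat.sInf_le h1
    · by_contra hcon
      push Not at hcon
      have hne : {k : ℕ | a (i - k - 1) ≠ a (i - k)}.Nonempty := ⟨_, h1⟩
      exact Nat.sInf_mem hne (h2 _ (by omega))

theorem measurable_back (i : ℤ) : Measurable (fun a : ℤ → Bool => back a i) := by
  have hs : ∀ m : ℕ, MeasurableSet {a : ℤ → Bool | back a i = m + 1} := by
    intro m
    have : {a : ℤ → Bool | back a i = m + 1} =
        {a | a (i - (m + 1 : ℕ) - 1) = a (i - (m + 1 : ℕ))}ᶜ ∩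
        ⋂ (k : ℕ) (_ : k ≤ m), {a | a (i - k - 1) = a (i - k)} := by
      ext a
      simp only [Set.mem_ofPred_eq, back_eq_succ, Set.mem_inter_iff, Set.mem_compl_iff,
        Set.mem_iInter]
    rw [this]
    apply MeasurableSet.inter
    · exact (measurableSet_eq_fun (f := fun a : ℤ → Bool => a (i - (m + 1 : ℕ) - 1))
        (g := fun a : ℤ → Bool => a (i - (m + 1 : ℕ)))
        (measurable_pi_apply _) (measurable_pi_apply _)).compl
    · exact MeasurableSet.iInter fun k => MeasurableSet.iInter fun _ =>
        measurableSet_eq_fun (f := fun a : ℤ → Bool => a (i - k - 1))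
          (g := fun a : ℤ → Bool => a (i - k)) (measurable_pi_apply _) (measurable_pi_apply _)
  apply measurable_to_countable'
  intro n
  rcases n with _ | m
  · have : (fun a : ℤ → Bool => back a i) ⁻¹' {0} = (⋃ m : ℕ, {a | back a i = m + 1})ᶜ := by
      ext a
      simp only [Set.mem_preimage, Set.mem_singleton_iff, Set.mem_compl_iff, Set.mem_iUnion,
        Set.mem_ofPred_eq, not_exists]
      constructor
      · intro h m
        omega
      · intro h
        rcases hb : back a i with _ | m
        · rfl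
        · exact absurd hb (h m)
    rw [this]
    exact (MeasurableSet.iUnion hs).compl
  · exact hs m

theorem measurable_colA : Measurable
    (fun p : (ℤ → Bool) × (ℤ → ℤ → Fin 4) => colA p.1 p.2) := by
  rw [measurable_pi_iff]
  intro i
  apply Measurable.prodMk
  · exact (measurable_pi_apply i).comp measurable_fst
  · apply measurable_to_countable'
    intro c
    have : (fun p : (ℤ → Bool) × (ℤ → ℤ → Fin 4) => p.2 (i - back p.1 i) (back p.1 i)) ⁻¹' {c} =
        ⋃ n : ℕ, {p : (ℤ → Bool) × (ℤ → ℤ → Fin 4) | back p.1 i = n} ∩ {p | p.2 (i - n) n = c} := by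
      ext p
      simp only [Set.mem_preimage, Set.mem_singleton_iff, Set.mem_iUnion, Set.mem_inter_iff]
      constructor
      · intro h
        exact ⟨back p.1 i, rfl, h⟩
      · rintro ⟨n, h1, h2⟩
        have h1' : back p.1 i = n := h1
        rw [h1']
        exact h2
    rw [this]
    apply MeasurableSet.iUnion
    intro n
    apply MeasurableSet.inter
    · exact ((measurable_back i).comp measurable_fst) (measurableSet_singleton n)
    · have hm2 : Measurable (fun p : (ℤ → Bool) × (ℤ → ℤ → Fin 4) => p.2 (i - n) n) :=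
        (measurable_pi_apply (n : ℤ)).comp ((measurable_pi_apply (i - n)).comp measurable_snd)
      exact hm2 (measurableSet_singleton c)

theorem measurable_colB : Measurable
    (fun p : (ℤ → Bool) × (ℤ → ℤ → Fin 4) => colB p.1 p.2) := by
  rw [measurable_pi_iff]
  intro i
  apply Measurable.prodMk
  · exact (measurable_pi_apply i).comp measurable_fst
  · apply measurable_to_countable'
    intro c
    have : (fun p : (ℤ → Bool) × (ℤ → ℤ → Fin 4) => p.2 (i - back p.1 i) i) ⁻¹' {c} =
        ⋃ n : ℕ, {p : (ℤ → Bool) × (ℤ → ℤ → Fin 4) | back p.1 i = n} ∩ {p | p.2 (i - n) i = c} := by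
      ext p
      simp only [Set.mem_preimage, Set.mem_singleton_iff, Set.mem_iUnion, Set.mem_inter_iff]
      constructor
      · intro h
        exact ⟨back p.1 i, rfl, h⟩
      · rintro ⟨n, h1, h2⟩
        have h1' : back p.1 i = n := h1
        rw [h1']
        exact h2
    rw [this]
    apply MeasurableSet.iUnion
    intro n
    apply MeasurableSet.inter
    · exact ((measurable_back i).comp measurable_fst) (measurableSet_singleton n)
    · have hm2 : Measurable (fun p : (ℤ → Bool) × (ℤ → ℤ → Fin 4) => p.2 (i - n) i) :=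
        (measurable_pi_apply (i : ℤ)).comp ((measurable_pi_apply (i - n)).comp measurable_snd)
      exact hm2 (measurableSet_singleton c)

/-! ### Laws -/

section law

variable (κ : Measure (ℤ → Fin 4)) [IsProbabilityMeasure κ]

/-- I.i.d. uniform labels. -/
noncomputable abbrev nuZ : Measure (ℤ → I) := Measure.infinitePi fun _ : ℤ => (volume : Measure I)

/-- I.i.d. copies of the colouring `κ`. -/
noncomputable abbrev kaZ : Measure (ℤ → ℤ → Fin 4) := Measure.infinitePi fun _ : ℤ => κ

/-- The law of the new colouring. -/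
noncomputable def lam : Measure (ℤ → Bool × Fin 4) :=
  (nuZ.prod (kaZ κ)).map (fun p => colA (up p.1) p.2)

theorem measurable_colAup : Measurable
    (fun p : (ℤ → I) × (ℤ → ℤ → Fin 4) => colA (up p.1) p.2) :=
  measurable_colA.comp ((measurable_up.comp measurable_fst).prodMk measurable_snd)

theorem measurable_colBup : Measurable
    (fun p : (ℤ → I) × (ℤ → ℤ → Fin 4) => colB (up p.1) p.2) :=
  measurable_colB.comp ((measurable_up.comp measurable_fst).prodMk measurable_snd)

instance : IsProbabilityMeasure (lam κ) :=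
  Measure.isProbabilityMeasure_map measurable_colAup.aemeasurable

theorem map_tr_infinitePi {X : Type*} [MeasurableSpace X] (τ : Measure X)
    [IsProbabilityMeasure τ] (m : ℤ) :
    (Measure.infinitePi fun _ : ℤ => τ).map (tr m) = Measure.infinitePi fun _ : ℤ => τ :=
  Measure.map_infinitePi_infinitePi_of_inj (P := fun _ : ℤ => τ) (f := fun i : ℤ => i + m)
    (add_left_injective m)

theorem map_shift_lines {κ : Measure (ℤ → Fin 4)} [IsProbabilityMeasure κ] (hκ : Stat κ) :
    (kaZ κ).map (fun V l => tr (-l) (V l)) = kaZ κ := by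
  rw [Measure.infinitePi_map_pi (fun _ : ℤ => κ) (f := fun l => tr (-l)) (fun l => measurable_tr _)]
  congr 1
  funext l
  exact hκ (-l)

theorem lintegral_lam {κ : Measure (ℤ → Fin 4)} [IsProbabilityMeasure κ] (hκ : Stat κ)
    {h : (ℤ → Bool × Fin 4) → ℝ≥0∞} (hh : Measurable h) :
    ∫⁻ w, h w ∂(lam κ) = ∫⁻ u, ∫⁻ V, h (colB (up u) V) ∂(kaZ κ) ∂nuZ := by
  unfold lam
  have hg : Measurable (fun p : (ℤ → I) × (ℤ → ℤ → Fin 4) => h (colA (up p.1) p.2)) :=
    hh.comp measurable_colAup
  rw [lintegral_map hh measurable_colAup, lintegral_prod _ hg.aemeasurable]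
  apply lintegral_congr
  intro u
  have h1 : Measurable (fun V : ℤ → ℤ → Fin 4 => h (colB (up u) V)) :=
    hh.comp (measurable_colBup.comp measurable_prodMk_left)
  have h2 : Measurable (fun (V : ℤ → ℤ → Fin 4) l => tr (-l) (V l)) := by
    rw [measurable_pi_iff]
    intro l
    exact (measurable_tr _).comp (measurable_pi_apply l)
  conv_rhs => rw [← map_shift_lines hκ]
  rw [lintegral_map h1 h2]
  apply lintegral_congr
  intro V
  rw [colA_eq_colB]

theorem stat_lam : Stat (lam κ) := by
  intro m
  unfold lam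
  rw [Measure.map_map (measurable_tr m) measurable_colAup]
  have e : (tr m ∘ fun p : (ℤ → I) × (ℤ → ℤ → Fin 4) => colA (up p.1) p.2) =
      (fun p : (ℤ → I) × (ℤ → ℤ → Fin 4) => colA (up p.1) p.2) ∘ (Prod.map (tr m) (tr m)) := by
    funext p
    simp only [Function.comp_apply, Prod.map_fst, Prod.map_snd]
    rw [up_tr, colA_tr]
  rw [e, ← Measure.map_map measurable_colAup ((measurable_tr m).prodMap (measurable_tr m)),
    ← Measure.map_prod_map _ _ (measurable_tr m) (measurable_tr m), map_tr_infinitePi,
    map_tr_infinitePi]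

/-- The copies, read column-wise, are 1-dependent. -/
theorem dep_kaZ {κ : Measure (ℤ → Fin 4)} [IsProbabilityMeasure κ] (dκ : Dep 2 κ)
    {F G : (ℤ → ℤ → Fin 4) → ℝ≥0∞} (hF : Measurable F) (hG : Measurable G)
    (dF : ∀ V V' : ℤ → ℤ → Fin 4, (∀ l, ∀ i ≤ 0, V l i = V' l i) → F V = F V')
    (dG : ∀ V V' : ℤ → ℤ → Fin 4, (∀ l, ∀ i, 2 ≤ i → V l i = V' l i) → G V = G V') :
    ∫⁻ V, F V * G V ∂(kaZ κ) = (∫⁻ V, F V ∂(kaZ κ)) * ∫⁻ V, G V ∂(kaZ κ) := by
  classical
  let unc : (ℤ → ℤ → Fin 4) → (ℤ × ℤ → Fin 4) := fun V p => V p.1 p.2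
  let cur : (ℤ × ℤ → Fin 4) → (ℤ → ℤ → Fin 4) := fun x l i => x (l, i)
  have mu : Measurable unc := by
    rw [measurable_pi_iff]; intro p
    exact (measurable_pi_apply p.2).comp (measurable_pi_apply p.1)
  have mc : Measurable cur := by
    rw [measurable_pi_iff]; intro l
    rw [measurable_pi_iff]; intro i
    exact measurable_pi_apply (l, i)
  have hcu : ∀ V, cur (unc V) = V := fun V => rfl
  have hind : IndepFun (fun (x : ℤ × ℤ → Fin 4) (i : {p : ℤ × ℤ | p.2 ≤ 0}) => x i)
      (fun (x : ℤ × ℤ → Fin 4) (i : {p : ℤ × ℤ | 2 ≤ p.2}) => x i) ((kaZ κ).map unc) := by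
    have : IsProbabilityMeasure ((kaZ κ).map unc) :=
      Measure.isProbabilityMeasure_map mu.aemeasurable
    apply indepFun_of_cyl (P := (kaZ κ).map unc) (fun (p : ℤ × ℤ) (x : ℤ × ℤ → Fin 4) => x p)
      (fun p => measurable_pi_apply p) {p : ℤ × ℤ | p.2 ≤ 0} {p : ℤ × ℤ | 2 ≤ p.2}
    intro A B hA hB s t
    have m1 : MeasurableSet {x : ℤ × ℤ → Fin 4 | ∀ i ∈ A, x i = s i} := measurableSet_cyl A s
    have m2 : MeasurableSet {x : ℤ × ℤ → Fin 4 | ∀ i ∈ B, x i = t i} := measurableSet_cyl B t
    have m3 : MeasurableSet {x : ℤ × ℤ → Fin 4 | (∀ i ∈ A, x i = s i) ∧ ∀ i ∈ B, x i = t i} :=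
      m1.inter m2
    rw [Measure.map_apply mu m3, Measure.map_apply mu m1, Measure.map_apply mu m2]
    let L : Finset ℤ := A.image Prod.fst ∪ B.image Prod.fst
    let E : ℤ → Set (ℤ → Fin 4) := fun l => {y | ∀ p ∈ A, p.1 = l → y p.2 = s p}
    let E' : ℤ → Set (ℤ → Fin 4) := fun l => {y | ∀ p ∈ B, p.1 = l → y p.2 = t p}
    have hE : ∀ l, MeasurableSet (E l) := by
      intro l
      have : E l = ⋂ p ∈ A.filter (fun p => p.1 = l), (fun y : ℤ → Fin 4 => y p.2) ⁻¹' {s p} := by
        ext y
        simp [E]
      rw [this]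
      exact Finset.measurableSet_biInter _ fun p _ =>
        (measurable_pi_apply p.2) (measurableSet_singleton _)
    have hE' : ∀ l, MeasurableSet (E' l) := by
      intro l
      have : E' l = ⋂ p ∈ B.filter (fun p => p.1 = l), (fun y : ℤ → Fin 4 => y p.2) ⁻¹' {t p} := by
        ext y
        simp [E']
      rw [this]
      exact Finset.measurableSet_biInter _ fun p _ =>
        (measurable_pi_apply p.2) (measurableSet_singleton _)
    have hmul : ∀ l ∈ L, κ (E l ∩ E' l) = κ (E l) * κ (E' l) := by
      intro l _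
      apply dep_sets dκ (hE l) (hE' l)
      · intro x y hxy
        constructor
        · intro h p hp hl
          rw [← hxy p.2 (hA p hp)]
          exact h p hp hl
        · intro h p hp hl
          rw [hxy p.2 (hA p hp)]
          exact h p hp hl
      · intro x y hxy
        constructor
        · intro h p hp hl
          rw [← hxy p.2 (hB p hp)]
          exact h p hp hl
        · intro h p hp hl
          rw [hxy p.2 (hB p hp)]
          exact h p hp hl
    have key := prod_indep κ L E E' (fun l _ => hE l) (fun l _ => hE' l) hmul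
    have q1 : ∀ V : ℤ → ℤ → Fin 4, (∀ l ∈ L, V l ∈ E l) ↔ ∀ p ∈ A, V p.1 p.2 = s p := by
      intro V
      constructor
      · intro h p hp
        exact h p.1 (Finset.mem_union_left _ (Finset.mem_image_of_mem _ hp)) p hp rfl
      · intro h l _ p hp hl
        rw [← hl]
        exact h p hp
    have q2 : ∀ V : ℤ → ℤ → Fin 4, (∀ l ∈ L, V l ∈ E' l) ↔ ∀ p ∈ B, V p.1 p.2 = t p := by
      intro V
      constructor
      · intro h p hp
        exact h p.1 (Finset.mem_union_right _ (Finset.mem_image_of_mem _ hp)) p hp rfl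
      · intro h l _ p hp hl
        rw [← hl]
        exact h p hp
    simp only [q1, q2] at key
    exact key
  have key := lintegral_mul_of_indep hind (f := fun x => F (cur x)) (g := fun x => G (cur x))
    (hF.comp mc) (hG.comp mc) (by
      intro x y hxy
      apply dF
      intro l i hi
      exact hxy (l, i) hi) (by
      intro x y hxy
      apply dG
      intro l i hi
      exact hxy (l, i) hi)
  have hFc : Measurable (fun x => F (cur x)) := hF.comp mc
  have hGc : Measurable (fun x => G (cur x)) := hG.comp mc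
  have hFGc : Measurable (fun x => F (cur x) * G (cur x)) := hFc.mul hGc
  rw [lintegral_map hFGc mu, lintegral_map hFc mu, lintegral_map hGc mu] at key
  simpa only [hcu] using key

end law

end Pool.Agent.H443R3.FC
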