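import Pool.Agent.H443R3.FC.Field

set_option autoImplicit false

open MeasureTheory ProbabilityTheory Filter Topology
open scoped ENNReal unitInterval Nat

/-!
# The main theorem
-/

namespace Pool.Agent.H443R3.FC

open Pool.Agent.H443R3.Seq

variable {n : ℕ} {ph : I → (ℤ → Fin 4)}

/-! ### Equivariance and measurability -/

theorem site_self (v : Fin (n + 1) → ℤ) (j : Fin (n + 1)) :
    site (j, j.removeNth v) (v j) = v := by
  unfold site
  simp

theorem removeNth_add (j : Fin (n + 1)) (v a : Fin (n + 1) → ℤ) :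
    j.removeNth (v + a) = j.removeNth v + j.removeNth a := rfl

theorem site_add (j : Fin (n + 1)) (v a : Fin (n + 1) → ℤ) (m : ℤ) :
    site (j, j.removeNth v) m + a = site (j, j.removeNth (v + a)) (m + a j) := by
  funext i
  unfold site
  refine Fin.succAboveCases j ?_ (fun i => ?_) i
  · simp
  · simp [Fin.removeNth]

theorem readL_tr (Y : Conf (n + 1)) (v a : Fin (n + 1) → ℤ) (j : Fin (n + 1)) (b : Bool) (m : ℤ) :
    readL (fun v => Y (v + a)) (j, j.removeNth v) (b, m) =
      readL Y (j, j.removeNth (v + a)) (b, m + a j) := by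
  show Y (site (j, j.removeNth v) m + a) (j, b) = Y (site (j, j.removeNth (v + a)) (m + a j)) (j, b)
  rw [site_add]

theorem colVec_equivariant (Y : Conf (n + 1)) (a v : Fin (n + 1) → ℤ) :
    colVec ph (fun v => Y (v + a)) v = colVec ph Y (v + a) := by
  funext j
  unfold colVec allCol lineCol
  have e1 : (fun m => readL (fun v => Y (v + a)) (j, j.removeNth v) (false, m)) =
      tr (a j) (fun m => readL Y (j, j.removeNth (v + a)) (false, m)) := by
    funext m
    exact readL_tr Y v a j false m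
  have e2 : (fun m => ph (readL (fun v => Y (v + a)) (j, j.removeNth v) (true, m))) =
      tr (a j) (fun m => ph (readL Y (j, j.removeNth (v + a)) (true, m))) := by
    funext m
    rw [readL_tr Y v a j true m]
    rfl
  rw [e1, e2, up_tr, colA_tr]
  rfl

theorem measurable_colVec (hph : Measurable ph) (v : Fin (n + 1) → ℤ) :
    Measurable (fun Y : Conf (n + 1) => colVec ph Y v) := by
  rw [measurable_pi_iff]
  intro j
  exact (measurable_pi_apply (v j)).comp
    ((measurable_pi_apply (j, j.removeNth v)).comp (measurable_allCol hph))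

/-! ### The coding radius -/

theorem norm1_site (j : Fin (n + 1)) (m : ℤ) : norm1 (site (j, (0 : Fin n → ℤ)) m) = |m| := by
  unfold norm1 site
  rw [Fin.sum_univ_succAbove _ j]
  simp

theorem removeNth_zero (j : Fin (n + 1)) : j.removeNth (0 : Fin (n + 1) → ℤ) = 0 := rfl

/-- The event that the run of the line in direction `j` through the origin is longer than `r`. -/
def Long (n : ℕ) (j : Fin (n + 1)) (r : ℕ) : Set (Conf (n + 1)) :=
  {Y | ∀ k : ℕ, k < r → up (fun m => readL Y (j, 0) (false, m)) (0 - k - 1) =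
    up (fun m => readL Y (j, 0) (false, m)) (0 - k)}

theorem colVec_determined (Y Y' : Conf (n + 1)) (r : ℕ) (hY : ∀ j, Y ∉ Long n j r)
    (h : ∀ v, norm1 v ≤ r → Y' v = Y v) : colVec ph Y' 0 = colVec ph Y 0 := by
  funext j
  have hj := hY j
  unfold Long at hj
  simp only [Set.mem_ofPred_eq, not_forall] at hj
  obtain ⟨k, hkr, hk⟩ := hj
  have hread : ∀ (b : Bool) (m : ℤ), |m| ≤ r → readL Y' (j, 0) (b, m) = readL Y (j, 0) (b, m) := by
    intro b m hm
    unfold readL
    rw [h _ (by rw [norm1_site]; exact hm)]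
  have hup : ∀ m : ℤ, -(r : ℤ) ≤ m → m < r →
      up (fun m => readL Y' (j, 0) (false, m)) m = up (fun m => readL Y (j, 0) (false, m)) m := by
    intro m h1 h2
    show decide (readL Y' (j, 0) (false, m) < readL Y' (j, 0) (false, m + 1)) =
      decide (readL Y (j, 0) (false, m) < readL Y (j, 0) (false, m + 1))
    rw [hread false m (by rw [abs_le]; omega), hread false (m + 1) (by rw [abs_le]; omega)]
  have hs := back_spec (a := up (fun m => readL Y (j, 0) (false, m))) (i := 0) ⟨k, hk⟩
  have hle : back (up (fun m => readL Y (j, 0) (false, m))) 0 ≤ k :=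
    Nat.sInf_le (show k ∈ {k : ℕ | up (fun m => readL Y (j, 0) (false, m)) (0 - k - 1) ≠
      up (fun m => readL Y (j, 0) (false, m)) (0 - k)} from hk)
  have hb : back (up (fun m => readL Y' (j, 0) (false, m))) 0 =
      back (up (fun m => readL Y (j, 0) (false, m))) 0 := by
    apply back_eq_of
    · rw [hup _ (by omega) (by omega), hup _ (by omega) (by omega)]
      exact hs.1
    · intro k' hk'
      rw [hup _ (by omega) (by omega), hup _ (by omega) (by omega)]
      exact hs.2 k' hk'
  unfold colVec allCol lineCol colA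
  simp only [removeNth_zero, Pi.zero_apply]
  rw [hb, hup 0 (by omega) (by omega), hread true _ (by rw [abs_le]; omega)]

theorem measure_long (j : Fin (n + 1)) (r : ℕ) :
    confM (n + 1) (Long n j r) ≤ 2 / ((r + 2)! : ℝ≥0∞) := by
  have m1 : Measurable (fun (Y : Conf (n + 1)) (m : ℤ) => readL Y (j, 0) (false, m)) := by
    rw [measurable_pi_iff]; intro m
    exact (measurable_pi_apply (false, m)).comp ((measurable_pi_apply (j, 0)).comp measurable_readL)
  have h1 : (confM (n + 1)).map (fun (Y : Conf (n + 1)) (m : ℤ) => readL Y (j, 0) (false, m)) =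
      nuZ := by
    have e : (fun (Y : Conf (n + 1)) (m : ℤ) => readL Y (j, 0) (false, m)) =
        (fun (w : Bool × ℤ → I) (m : ℤ) => w (false, m)) ∘
          ((fun (z : Lines n → (Bool × ℤ → I)) => z (j, 0)) ∘ readL) := rfl
    rw [e, ← Measure.map_map (by fun_prop) ((measurable_pi_apply _).comp measurable_readL),
      ← Measure.map_map (measurable_pi_apply _) measurable_readL, map_readL,
      Measure.infinitePi_map_eval (fun _ : Lines n => Measure.infinitePi fun _ : Bool × ℤ =>
        (volume : Measure I)) (j, 0)]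
    exact Measure.map_infinitePi_infinitePi_of_inj (P := fun _ : Bool × ℤ => (volume : Measure I))
      (f := fun m : ℤ => (false, m)) (fun a b h => (Prod.mk.inj h).2)
  have h2 : MeasurableSet {u : ℤ → I | ∀ k : ℕ, k < r → up u (0 - k - 1) = up u (0 - k)} := by
    have : {u : ℤ → I | ∀ k : ℕ, k < r → up u (0 - k - 1) = up u (0 - k)} =
        ⋂ (k : ℕ) (_ : k < r), {u | up u (0 - k - 1) = up u (0 - k)} := by
      ext u; simp
    rw [this]
    exact MeasurableSet.iInter fun k => MeasurableSet.iInter fun _ =>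
      measurableSet_eq_fun ((measurable_pi_apply _).comp measurable_up)
        ((measurable_pi_apply _).comp measurable_up)
  have h3 := run_bound 0 r
  rw [← h1, Measure.map_apply m1 h2] at h3
  exact h3

/-! ### Independence -/

theorem law_indep (hph : Measurable ph) {κ : Measure (ℤ → Fin 4)} [IsProbabilityMeasure κ]
    (hκ : (volume : Measure I).map ph = κ) (sκ : Stat κ) (dκ : Dep 2 κ)
    {q : ℕ} (enc : (Fin (n + 1) → Bool × Fin 4) ≃ Fin q) :
    KDependent 1 (confM (n + 1)) (fun v Y => enc (colVec ph Y v)) := by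
  classical
  intro A B hAB
  apply indepFun_of_cyl (fun v (Y : Conf (n + 1)) => enc (colVec ph Y v))
    (fun v => (Measurable.of_discrete).comp (measurable_colVec hph v))
  intro I' J hI hJ s t
  -- the lines that matter
  let L : Finset (Lines n) := (Finset.univ ×ˢ (I' ∪ J)).image
    (fun p : Fin (n + 1) × (Fin (n + 1) → ℤ) => (p.1, p.1.removeNth p.2))
  let S : Finset (Fin (n + 1) → ℤ) → Lines n → Finset ℤ := fun K l =>
    (K.filter (fun v => l.1.removeNth v = l.2)).image (fun v => v l.1)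
  let pat : ((Fin (n + 1) → ℤ) → Fin q) → Lines n → ℤ → Bool × Fin 4 := fun s l m =>
    enc.symm (s (site l m)) l.1
  let E : Lines n → Set (ℤ → Bool × Fin 4) := fun l => {x | ∀ m ∈ S I' l, x m = pat s l m}
  let E' : Lines n → Set (ℤ → Bool × Fin 4) := fun l => {x | ∀ m ∈ S J l, x m = pat t l m}
  have hsite : ∀ (l : Lines n) (v : Fin (n + 1) → ℤ), l.1.removeNth v = l.2 → site l (v l.1) = v := by
    rintro ⟨j, r⟩ v h
    simp only at h ⊢
    rw [← h]
    exact site_self v j
  have hdist : ∀ l, ∀ a ∈ S I' l, ∀ b ∈ S J l, 1 < |a - b| := by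
    intro l a ha b hb
    simp only [S, Finset.mem_image, Finset.mem_filter] at ha hb
    obtain ⟨v, ⟨hv, hvl⟩, rfl⟩ := ha
    obtain ⟨w, ⟨hw, hwl⟩, rfl⟩ := hb
    have h1 := hAB v (hI v hv) w (hJ w hw)
    unfold norm1 at h1
    rw [Fin.sum_univ_succAbove _ l.1] at h1
    have h2 : ∑ i : Fin n, |(v - w) (l.1.succAbove i)| = 0 := by
      apply Finset.sum_eq_zero
      intro i _
      have h3 : v (l.1.succAbove i) = w (l.1.succAbove i) := congrFun (hvl.trans hwl.symm) i
      simp [h3]
    rw [h2, add_zero] at h1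
    simpa using h1
  have hmul : ∀ l ∈ L, lam κ (E l ∩ E' l) = lam κ (E l) * lam κ (E' l) := by
    intro l _
    have key := cyl_indep (stat_lam κ) (dep_lam sκ dκ) _ (S I' l) (S J l) le_rfl
      (hdist l) (fun m => if m ∈ S I' l then pat s l m else pat t l m)
    have e1 : {x : ℤ → Bool × Fin 4 | ∀ i ∈ S I' l, x i =
        (fun m => if m ∈ S I' l then pat s l m else pat t l m) i} = E l := by
      ext x
      simp only [E, Set.mem_ofPred_eq]
      constructor
      · intro h m hm
        rw [h m hm, if_pos hm]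
      · intro h m hm
        rw [h m hm, if_pos hm]
    have hnot : ∀ m ∈ S J l, m ∉ S I' l := by
      intro m hm hm'
      have := hdist l m hm' m hm
      simp at this
    have e2 : {x : ℤ → Bool × Fin 4 | ∀ i ∈ S J l, x i =
        (fun m => if m ∈ S I' l then pat s l m else pat t l m) i} = E' l := by
      ext x
      simp only [E', Set.mem_ofPred_eq]
      constructor
      · intro h m hm
        rw [h m hm, if_neg (hnot m hm)]
      · intro h m hm
        rw [h m hm, if_neg (hnot m hm)]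
    have e3 : {x : ℤ → Bool × Fin 4 | (∀ i ∈ S I' l, x i =
        (fun m => if m ∈ S I' l then pat s l m else pat t l m) i) ∧ ∀ i ∈ S J l, x i =
        (fun m => if m ∈ S I' l then pat s l m else pat t l m) i} = E l ∩ E' l := by
      rw [← e1, ← e2]
      rfl
    rw [e1, e2, e3] at key
    exact key
  have hE : ∀ l, MeasurableSet (E l) := fun l => measurableSet_cyl _ _
  have hE' : ∀ l, MeasurableSet (E' l) := fun l => measurableSet_cyl _ _
  have key := prod_indep (lam κ) L E E' (fun l _ => hE l) (fun l _ => hE' l) hmul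
  -- translate back
  have tr1 : ∀ (K : Finset (Fin (n + 1) → ℤ)) (hK : K ⊆ I' ∪ J)
      (s : (Fin (n + 1) → ℤ) → Fin q) (Y : Conf (n + 1)),
      (∀ l ∈ L, allCol ph Y l ∈ {x : ℤ → Bool × Fin 4 | ∀ m ∈ S K l, x m = pat s l m}) ↔
        ∀ v ∈ K, enc (colVec ph Y v) = s v := by
    intro K hK s Y
    constructor
    · intro h v hv
      rw [← Equiv.eq_symm_apply]
      funext j
      have hl : (j, j.removeNth v) ∈ L :=
        Finset.mem_image.2 ⟨(j, v), Finset.mem_product.2 ⟨Finset.mem_univ _, hK hv⟩, rfl⟩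
      have h1 := h _ hl (v j) (Finset.mem_image.2 ⟨v, Finset.mem_filter.2 ⟨hv, rfl⟩, rfl⟩)
      have h2 : pat s (j, j.removeNth v) (v j) = enc.symm (s v) j := by
        show enc.symm (s (site (j, j.removeNth v) (v j))) j = _
        rw [site_self]
      rw [← h2]
      exact h1
    · intro h l _ m hm
      simp only [S, Finset.mem_image, Finset.mem_filter] at hm
      obtain ⟨v, ⟨hv, hvl⟩, rfl⟩ := hm
      have h1 := h v hv
      rw [← Equiv.eq_symm_apply] at h1
      have h2 : pat s l (v l.1) = enc.symm (s v) l.1 := by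
        show enc.symm (s (site l (v l.1))) l.1 = _
        rw [hsite l v hvl]
      rw [h2, ← h1]
      unfold colVec
      rw [hvl]
  have mW := measurable_allCol hph (n := n)
  have mE1 : MeasurableSet {x : Lines n → (ℤ → Bool × Fin 4) | ∀ l ∈ L, x l ∈ E l} := by
    have : {x : Lines n → (ℤ → Bool × Fin 4) | ∀ l ∈ L, x l ∈ E l} =
        ⋂ l ∈ L, (fun x : Lines n → (ℤ → Bool × Fin 4) => x l) ⁻¹' E l := by
      ext x; simp
    rw [this]
    exact Finset.measurableSet_biInter _ fun l _ => (measurable_pi_apply l) (hE l)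
  have mE2 : MeasurableSet {x : Lines n → (ℤ → Bool × Fin 4) | ∀ l ∈ L, x l ∈ E' l} := by
    have : {x : Lines n → (ℤ → Bool × Fin 4) | ∀ l ∈ L, x l ∈ E' l} =
        ⋂ l ∈ L, (fun x : Lines n → (ℤ → Bool × Fin 4) => x l) ⁻¹' E' l := by
      ext x; simp
    rw [this]
    exact Finset.measurableSet_biInter _ fun l _ => (measurable_pi_apply l) (hE' l)
  have mE3 : MeasurableSet {x : Lines n → (ℤ → Bool × Fin 4) |
      (∀ l ∈ L, x l ∈ E l) ∧ ∀ l ∈ L, x l ∈ E' l} := mE1.inter mE2
  rw [← map_allCol hph hκ n, Measure.map_apply mW mE3, Measure.map_apply mW mE1,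
    Measure.map_apply mW mE2] at key
  have f1 : (allCol ph : Conf (n + 1) → _) ⁻¹' {x | ∀ l ∈ L, x l ∈ E l} =
      {Y | ∀ i ∈ I', enc (colVec ph Y i) = s i} := by
    ext Y
    exact tr1 I' Finset.subset_union_left s Y
  have f2 : (allCol ph : Conf (n + 1) → _) ⁻¹' {x | ∀ l ∈ L, x l ∈ E' l} =
      {Y | ∀ i ∈ J, enc (colVec ph Y i) = t i} := by
    ext Y
    exact tr1 J Finset.subset_union_right t Y
  have f3 : (allCol ph : Conf (n + 1) → _) ⁻¹' {x | (∀ l ∈ L, x l ∈ E l) ∧ ∀ l ∈ L, x l ∈ E' l} =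
      {Y | (∀ i ∈ I', enc (colVec ph Y i) = s i) ∧ ∀ i ∈ J, enc (colVec ph Y i) = t i} := by
    ext Y
    exact and_congr (tr1 I' Finset.subset_union_left s Y) (tr1 J Finset.subset_union_right t Y)
  rw [f1, f2, f3] at key
  exact key

/-! ### Properness -/

theorem exists_dir (u v : Fin (n + 1) → ℤ) (h : norm1 (u - v) = 1) :
    ∃ j, j.removeNth u = j.removeNth v ∧ (u j = v j + 1 ∨ v j = u j + 1) := by
  unfold norm1 at h
  have h0 : ∃ j, (u - v) j ≠ 0 := by
    by_contra hcon
    push Not at hcon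
    simp [hcon] at h
  obtain ⟨j, hj⟩ := h0
  rw [Fin.sum_univ_succAbove _ j] at h
  have h1 : 1 ≤ |(u - v) j| := Int.one_le_abs hj
  have h2 : 0 ≤ ∑ i : Fin n, |(u - v) (j.succAbove i)| :=
    Finset.sum_nonneg fun i _ => abs_nonneg _
  have h3 : ∑ i : Fin n, |(u - v) (j.succAbove i)| = 0 := by omega
  have h4 : |(u - v) j| = 1 := by omega
  rw [Finset.sum_eq_zero_iff_of_nonneg (fun i _ => abs_nonneg _)] at h3
  refine ⟨j, ?_, ?_⟩
  · funext i
    have := abs_eq_zero.1 (h3 i (Finset.mem_univ i))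
    simp only [Pi.sub_apply] at this
    show u (j.succAbove i) = v (j.succAbove i)
    omega
  · simp only [Pi.sub_apply] at h4
    rcases abs_eq (by norm_num : (0 : ℤ) ≤ 1) |>.1 h4 with h5 | h5
    · left; omega
    · right; omega

theorem ae_proper_field (hph : Measurable ph) {κ : Measure (ℤ → Fin 4)} [IsProbabilityMeasure κ]
    (hκ : (volume : Measure I).map ph = κ) (pκ : ∀ᵐ x ∂κ, ∀ i : ℤ, x i ≠ x (i + 1)) :
    ∀ᵐ Y ∂(confM (n + 1)), ∀ u v, norm1 (u - v) = 1 → colVec ph Y u ≠ colVec ph Y v := by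
  have mP : MeasurableSet {x : ℤ → Bool × Fin 4 | ∀ m : ℤ, x m ≠ x (m + 1)} := by
    have : {x : ℤ → Bool × Fin 4 | ∀ m : ℤ, x m ≠ x (m + 1)} =
        ⋂ m : ℤ, {x : ℤ → Bool × Fin 4 | x m = x (m + 1)}ᶜ := by
      ext x; simp
    rw [this]
    exact MeasurableSet.iInter fun m =>
      (measurableSet_eq_fun (measurable_pi_apply m) (measurable_pi_apply (m + 1))).compl
  have h1 : ∀ᵐ x ∂(lam κ), ∀ m : ℤ, x m ≠ x (m + 1) := by
    unfold lam
    rw [ae_map_iff measurable_colAup.aemeasurable mP]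
    filter_upwards [ae_proper pκ] with p hp
    exact hp.2
  have h2 : ∀ᵐ Y ∂(confM (n + 1)), ∀ l : Lines n, ∀ m : ℤ, allCol ph Y l m ≠ allCol ph Y l (m + 1) := by
    rw [ae_all_iff]
    intro l
    have e1 : (confM (n + 1)).map (fun Y => allCol ph Y l) = lam κ := by
      have e2 : (fun Y : Conf (n + 1) => allCol ph Y l) =
          (fun x : Lines n → (ℤ → Bool × Fin 4) => x l) ∘ allCol ph := rfl
      rw [e2, ← Measure.map_map (measurable_pi_apply l) (measurable_allCol hph),
        map_allCol hph hκ, Measure.infinitePi_map_eval (fun _ : Lines n => lam κ) l]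
    rw [← e1] at h1
    exact ae_of_ae_map ((measurable_pi_apply l).comp (measurable_allCol hph)).aemeasurable h1
  filter_upwards [h2] with Y hY u v huv heq
  obtain ⟨j, hj, hj'⟩ := exists_dir u v huv
  have h3 := congrFun heq j
  unfold colVec at h3
  rw [hj] at h3
  rcases hj' with h | h
  · rw [h] at h3
    exact hY _ _ h3.symm
  · rw [h] at h3
    exact hY _ _ h3

/-! ### Assembly -/

theorem main_aux (n : ℕ) :
    ∃ F : ((Fin (n + 1) → ℤ) → Lab (n + 1)) → ((Fin (n + 1) → ℤ) → Fin (8 ^ (n + 1))),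
      Measurable F ∧ Equivariant F ∧
      (∀ᵐ y ∂(confM (n + 1)), ∀ u v, norm1 (u - v) = 1 → F y u ≠ F y v) ∧
      KDependent 1 (confM (n + 1)) (fun v y => F y v) ∧
      ∀ r : ℕ, confM (n + 1) {y | (r : ℕ∞) < codingRadius F y} ≤
        ((n + 1 : ℕ) : ℝ≥0∞) * (2 / ((r + 2)! : ℝ≥0∞)) := by
  obtain ⟨κ, hκP, sκ, dκ, pκ⟩ := Kappa.exists_colouring
  obtain ⟨ph, hph, hκ⟩ := Measure.exists_measurable_map_eq κ
  have hcard : Fintype.card (Fin (n + 1) → Bool × Fin 4) = 8 ^ (n + 1) := by
    simp
  let enc : (Fin (n + 1) → Bool × Fin 4) ≃ Fin (8 ^ (n + 1)) := Fintype.equivFinOfCardEq hcard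
  refine ⟨fun Y v => enc (colVec ph Y v), ?_, ?_, ?_, ?_, ?_⟩
  · rw [measurable_pi_iff]
    intro v
    exact (Measurable.of_discrete).comp (measurable_colVec hph v)
  · intro a Y
    funext v
    show enc (colVec ph (fun v => Y (v + a)) v) = enc (colVec ph Y (v + a))
    rw [colVec_equivariant]
  · filter_upwards [ae_proper_field hph hκ pκ] with Y hY u v huv h
    exact hY u v huv (enc.injective h)
  · exact law_indep hph hκ sκ dκ enc
  · intro r
    have hsub : {y | (r : ℕ∞) < codingRadius (fun (Y : Conf (n + 1)) v => enc (colVec ph Y v)) y} ⊆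
        ⋃ j : Fin (n + 1), Long n j r := by
      intro y hy
      by_contra hcon
      simp only [Set.mem_iUnion, not_exists] at hcon
      have hdet : Determined (fun (Y : Conf (n + 1)) v => enc (colVec ph Y v)) y r := by
        intro y' h
        show enc (colVec ph y' 0) = enc (colVec ph y 0)
        rw [colVec_determined y y' r hcon h]
      have hle : codingRadius (fun (Y : Conf (n + 1)) v => enc (colVec ph Y v)) y ≤ (r : ℕ∞) :=
        iInf₂_le r hdet
      exact absurd hy (not_lt.2 hle)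
    calc confM (n + 1) {y | (r : ℕ∞) < codingRadius (fun (Y : Conf (n + 1)) v => enc (colVec ph Y v)) y}
        ≤ confM (n + 1) (⋃ j : Fin (n + 1), Long n j r) := measure_mono hsub
      _ ≤ ∑ j : Fin (n + 1), confM (n + 1) (Long n j r) := measure_iUnion_fintype_le _ _
      _ ≤ ∑ _j : Fin (n + 1), 2 / ((r + 2)! : ℝ≥0∞) :=
          Finset.sum_le_sum fun j _ => measure_long j r
      _ = ((n + 1 : ℕ) : ℝ≥0∞) * (2 / ((r + 2)! : ℝ≥0∞)) := by
          rw [Finset.sum_const, Finset.card_univ, Fintype.card_fin, nsmul_eq_mul]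

theorem superexp (d : ℕ) (C : ℝ) : ∀ᶠ r : ℕ in atTop,
    (d : ℝ≥0∞) * (2 / ((r + 2)! : ℝ≥0∞)) ≤ ENNReal.ofReal (Real.exp (-C * r)) := by
  have h1 := FloorSemiring.tendsto_pow_div_factorial_atTop (Real.exp C)
  have h2 : ∀ᶠ r : ℕ in atTop, Real.exp C ^ r / (r ! : ℝ) < 1 / (2 * d + 1) :=
    h1.eventually_lt_const (by positivity)
  filter_upwards [h2] with r hr
  have hfac : (0 : ℝ) < (r ! : ℝ) := by exact_mod_cast r.factorial_pos
  have hfac2 : (0 : ℝ) < ((r + 2)! : ℝ) := by exact_mod_cast (r + 2).factorial_pos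
  have hle : (r ! : ℝ) ≤ ((r + 2)! : ℝ) := by exact_mod_cast Nat.factorial_le (by omega)
  have e1 : (d : ℝ≥0∞) * (2 / ((r + 2)! : ℝ≥0∞)) =
      ENNReal.ofReal ((d : ℝ) * (2 / ((r + 2)! : ℝ))) := by
    rw [ENNReal.ofReal_mul (by positivity), ENNReal.ofReal_div_of_pos hfac2, ENNReal.ofReal_natCast,
      ENNReal.ofReal_natCast]
    norm_num
  rw [e1]
  apply ENNReal.ofReal_le_ofReal
  have h3 : Real.exp (-C * r) = 1 / Real.exp C ^ r := by
    rw [← Real.exp_nat_mul, one_div, ← Real.exp_neg]
    congr 1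
    ring
  rw [h3]
  have hE : (0 : ℝ) < Real.exp C ^ r := by positivity
  rw [div_lt_div_iff₀ hfac (by positivity)] at hr
  rw [le_div_iff₀ hE, ← mul_div_assoc, div_mul_eq_mul_div, div_le_one hfac2]
  have hd : (0 : ℝ) ≤ d := by positivity
  nlinarith [mul_nonneg hd hE.le]

end Pool.Agent.H443R3.FC
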