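import Pool.Agent.H443R3.FC.Line

set_option autoImplicit false

open MeasureTheory ProbabilityTheory Filter Topology
open scoped ENNReal unitInterval Nat

/-!
# Monotone runs of i.i.d. uniform labels are superexponentially short
-/

namespace Pool.Agent.H443R3.FC

open Pool.Agent.H443R3.Seq

theorem perm_bound (n : ℕ) (e : Fin n → ℤ) (he : Function.Injective e) (M : Set (Fin n → I))
    (hM : MeasurableSet M)
    (hdisj : ∀ (ρ τ : Equiv.Perm (Fin n)) (x : Fin n → I), x ∘ ρ ∈ M → x ∘ τ ∈ M → ρ = τ) :
    nuZ {u | u ∘ e ∈ M} ≤ 1 / (n ! : ℝ≥0∞) := by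
  have h1 : ∀ ρ : Equiv.Perm (Fin n), nuZ {u | u ∘ e ∘ ρ ∈ M} =
      (Measure.infinitePi fun _ : Fin n => (volume : Measure I)) M := by
    intro ρ
    have hinj : Function.Injective (e ∘ ρ) := he.comp ρ.injective
    have := Measure.map_infinitePi_infinitePi_of_inj (P := fun _ : ℤ => (volume : Measure I)) hinj
    rw [← this, Measure.map_apply (by fun_prop) hM]
    rfl
  have m1 : ∀ ρ : Equiv.Perm (Fin n), MeasurableSet {u : ℤ → I | u ∘ e ∘ ρ ∈ M} := by
    intro ρ
    have : Measurable (fun u : ℤ → I => u ∘ e ∘ ρ) := by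
      rw [measurable_pi_iff]; intro i; exact measurable_pi_apply _
    exact this hM
  have h2 : nuZ (⋃ ρ : Equiv.Perm (Fin n), {u : ℤ → I | u ∘ e ∘ ρ ∈ M}) =
      ∑ ρ : Equiv.Perm (Fin n), nuZ {u : ℤ → I | u ∘ e ∘ ρ ∈ M} := by
    rw [measure_iUnion _ m1, tsum_fintype]
    intro ρ τ hρτ
    rw [Function.onFun, Set.disjoint_left]
    intro u hu hu'
    exact hρτ (hdisj ρ τ (u ∘ e) hu hu')
  have h3 : nuZ (⋃ ρ : Equiv.Perm (Fin n), {u : ℤ → I | u ∘ e ∘ ρ ∈ M}) ≤ 1 := prob_le_one
  rw [h2] at h3
  simp only [h1] at h3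
  rw [Finset.sum_const, Finset.card_univ, Fintype.card_perm, Fintype.card_fin, nsmul_eq_mul] at h3
  have h4 : nuZ {u | u ∘ e ∈ M} = (Measure.infinitePi fun _ : Fin n => (volume : Measure I)) M :=
    h1 1
  rw [h4]
  rw [ENNReal.le_div_iff_mul_le (Or.inl (by simpa using n.factorial_ne_zero))
    (Or.inl (ENNReal.natCast_ne_top _)), mul_comm]
  exact h3

theorem measurableSet_strictMono (n : ℕ) : MeasurableSet {x : Fin n → I | StrictMono x} := by
  have : {x : Fin n → I | StrictMono x} = ⋂ (i : Fin n) (j : Fin n) (_ : i < j), {x | x i < x j} := by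
    ext x
    simp only [Set.mem_ofPred_eq, Set.mem_iInter]
    constructor
    · intro h i j hij
      exact h hij
    · intro h i j hij
      exact h i j hij
  rw [this]
  exact MeasurableSet.iInter fun i => MeasurableSet.iInter fun j => MeasurableSet.iInter fun _ =>
    measurableSet_lt (measurable_pi_apply i) (measurable_pi_apply j)

theorem measurableSet_strictAnti (n : ℕ) : MeasurableSet {x : Fin n → I | StrictAnti x} := by
  have : {x : Fin n → I | StrictAnti x} = ⋂ (i : Fin n) (j : Fin n) (_ : i < j), {x | x j < x i} := by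
    ext x
    simp only [Set.mem_ofPred_eq, Set.mem_iInter]
    constructor
    · intro h i j hij
      exact h hij
    · intro h i j hij
      exact h i j hij
  rw [this]
  exact MeasurableSet.iInter fun i => MeasurableSet.iInter fun j => MeasurableSet.iInter fun _ =>
    measurableSet_lt (measurable_pi_apply j) (measurable_pi_apply i)

theorem perm_unique {β : Type*} [LinearOrder β] {n : ℕ} (ρ τ : Equiv.Perm (Fin n)) (x : Fin n → β)
    (h1 : StrictMono (x ∘ ρ)) (h2 : StrictMono (x ∘ τ)) : ρ = τ := by
  have h3 : x ∘ ρ = x ∘ τ := by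
    rw [← StrictMono.range_inj h1 h2, Set.range_comp, Set.range_comp, ρ.surjective.range_eq,
      τ.surjective.range_eq]
  have hinj : Function.Injective x := by
    intro a b hab
    have := h1.injective (a₁ := ρ.symm a) (a₂ := ρ.symm b) (by simpa using hab)
    exact ρ.symm.injective this
  ext i
  rw [hinj (congrFun h3 i)]

theorem mono_bound (n : ℕ) (e : Fin n → ℤ) (he : Function.Injective e) :
    nuZ {u | StrictMono (u ∘ e)} ≤ 1 / (n ! : ℝ≥0∞) :=
  perm_bound n e he {x | StrictMono x} (measurableSet_strictMono n)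
    (fun ρ τ x h1 h2 => perm_unique ρ τ x h1 h2)

theorem anti_bound (n : ℕ) (e : Fin n → ℤ) (he : Function.Injective e) :
    nuZ {u | StrictAnti (u ∘ e)} ≤ 1 / (n ! : ℝ≥0∞) :=
  perm_bound n e he {x | StrictAnti x} (measurableSet_strictAnti n)
    (fun ρ τ x h1 h2 => perm_unique ρ τ (OrderDual.toDual ∘ x)
      (fun _ _ h => h1 h) (fun _ _ h => h2 h))

/-- Almost surely there are no ties. -/
theorem ae_injective : ∀ᵐ u ∂nuZ, Function.Injective u := by
  have h1 : ∀ i j : ℤ, i ≠ j → ∀ᵐ u ∂nuZ, u i ≠ u j := by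
    intro i j hij
    have hm : MeasurableSet {p : I × I | p.1 = p.2} := measurableSet_eq_fun measurable_fst measurable_snd
    have h2 : ((volume : Measure I).prod volume) {p : I × I | p.1 = p.2} = 0 := by
      rw [Measure.measure_prod_null hm]
      filter_upwards with x
      have : Prod.mk x ⁻¹' {p : I × I | p.1 = p.2} = {x} := by
        ext y
        simp [eq_comm]
      rw [this]
      simp
    rw [← Measure.infinitePi_map_eval_prod (P := fun _ : ℤ => (volume : Measure I)) hij,
      Measure.map_apply (by fun_prop) hm] at h2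
    rw [ae_iff]
    simpa using h2
  have h2 : ∀ᵐ u ∂nuZ, ∀ i j : ℤ, i ≠ j → u i ≠ u j := by
    rw [ae_all_iff]; intro i
    rw [ae_all_iff]; intro j
    by_cases hij : i = j
    · exact ae_of_all _ fun u h => absurd hij h
    · filter_upwards [h1 i j hij] with u hu _ using hu
  filter_upwards [h2] with u hu i j h
  by_contra hcon
  exact hu i j hcon h

/-- A long run has small probability. -/
theorem run_bound (i : ℤ) (r : ℕ) :
    nuZ {u | ∀ k : ℕ, k < r → up u (i - k - 1) = up u (i - k)} ≤ 2 / ((r + 2)! : ℝ≥0∞) := by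
  let e : Fin (r + 2) → ℤ := fun m => i - r + (m : ℕ)
  have he : Function.Injective e := by
    intro a b hab
    simp only [e] at hab
    apply Fin.ext
    omega
  have hsub : {u | ∀ k : ℕ, k < r → up u (i - k - 1) = up u (i - k)} ≤ᵐ[nuZ]
      ({u | StrictMono (u ∘ e)} ∪ {u | StrictAnti (u ∘ e)} : Set (ℤ → I)) := by
    filter_upwards [ae_injective] with u hu hrun
    have hrun' : ∀ k : ℕ, k < r → up u (i - k - 1) = up u (i - k) := hrun
    have hconst : ∀ k : ℕ, k ≤ r → up u (i - k) = up u i := by
      intro k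
      induction k with
      | zero => intro _; simp
      | succ k ih =>
        intro hk
        rw [← ih (by omega), ← hrun' k (by omega)]
        congr 1
        push_cast
        ring
    rcases hb : up u i with _ | _
    · right
      show StrictAnti (u ∘ e)
      rw [Fin.strictAnti_iff_succ_lt]
      intro m
      have hm := m.2
      have h1 := hconst (r - m) (by omega)
      rw [hb] at h1
      have h2 : i - ((r - (m : ℕ) : ℕ) : ℤ) = e m.castSucc := by
        simp only [e, Fin.val_castSucc]
        omega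
      have h3 : e m.castSucc + 1 = e m.succ := by
        simp only [e, Fin.val_castSucc, Fin.val_succ]
        push_cast; ring
      rw [h2] at h1
      unfold up at h1
      rw [h3, decide_eq_false_iff_not, not_lt] at h1
      refine lt_of_le_of_ne h1 ?_
      intro h4
      have h5 := hu h4
      rw [← h3] at h5
      omega
    · left
      show StrictMono (u ∘ e)
      rw [Fin.strictMono_iff_lt_succ]
      intro m
      have hm := m.2
      have h1 := hconst (r - m) (by omega)
      rw [hb] at h1
      have h2 : i - ((r - (m : ℕ) : ℕ) : ℤ) = e m.castSucc := by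
        simp only [e, Fin.val_castSucc]
        omega
      have h3 : e m.castSucc + 1 = e m.succ := by
        simp only [e, Fin.val_castSucc, Fin.val_succ]
        push_cast; ring
      rw [h2] at h1
      unfold up at h1
      rw [h3, decide_eq_true_iff] at h1
      exact h1
  calc nuZ {u | ∀ k : ℕ, k < r → up u (i - k - 1) = up u (i - k)}
      ≤ nuZ ({u | StrictMono (u ∘ e)} ∪ {u | StrictAnti (u ∘ e)} : Set (ℤ → I)) :=
        measure_mono_ae hsub
    _ ≤ nuZ {u | StrictMono (u ∘ e)} + nuZ {u | StrictAnti (u ∘ e)} := measure_union_le _ _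
    _ ≤ 1 / ((r + 2)! : ℝ≥0∞) + 1 / ((r + 2)! : ℝ≥0∞) :=
        add_le_add (mono_bound _ e he) (anti_bound _ e he)
    _ = 2 / ((r + 2)! : ℝ≥0∞) := by
        rw [← ENNReal.add_div]; norm_num

theorem tendsto_bound : Tendsto (fun r : ℕ => 2 / ((r + 2)! : ℝ≥0∞)) atTop (𝓝 0) := by
  have h1 : Tendsto (fun r : ℕ => ((r + 2)! : ℝ≥0∞)) atTop (𝓝 ⊤) :=
    ENNReal.tendsto_nat_nhds_top.comp
      (factorial_tendsto_atTop.comp (tendsto_add_atTop_nat 2))
  have h2 := ENNReal.Tendsto.const_div (a := 2) h1 (Or.inr (by norm_num))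
  simpa using h2

/-- Almost surely every run has a starting point. -/
theorem ae_start : ∀ᵐ u ∂nuZ, ∀ i : ℤ, ∃ k : ℕ, up u (i - k - 1) ≠ up u (i - k) := by
  rw [ae_all_iff]
  intro i
  rw [ae_iff]
  have : {u : ℤ → I | ¬ ∃ k : ℕ, up u (i - k - 1) ≠ up u (i - k)} =
      {u | ∀ k : ℕ, up u (i - k - 1) = up u (i - k)} := by
    ext u
    simp
  rw [this]
  refine le_antisymm (ge_of_tendsto' tendsto_bound fun r => ?_) (by simp)
  refine le_trans (measure_mono ?_) (run_bound i r)
  intro u hu k _
  exact hu k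

end Pool.Agent.H443R3.FC
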